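import Mathlib

set_option autoImplicit false

/-!
# Arithmetic progressions on the circle avoiding an interval
-/

namespace Pool.Agent.H238R3.UL

lemma gap_aux (w z ρ : ℝ) (N b : ℕ) (c : ℤ) (hb : 1 ≤ b) (hcop : IsCoprime c (b:ℤ))
    (hv0 : 0 < b * z - c) (hv2 : b * z - c < 2 * ρ) (hN : 1 / (b * z - c) + b ≤ N) :
    ∃ l : ℕ, l < N ∧ ∃ n : ℤ, |w + l * z - n| < ρ := by
  set v : ℝ := b * z - c with hv
  have hbr : (1:ℝ) ≤ b := by exact_mod_cast hb
  have hb0 : (0:ℝ) < b := by linarith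
  set m : ℤ := ⌈(b:ℝ) * (w + ρ)⌉ with hm
  set t : ℝ := m / b - w with ht
  have ht1 : ρ ≤ t := by
    have h1 : (b:ℝ) * (w + ρ) ≤ m := Int.le_ceil _
    rw [ht, le_sub_iff_add_le, le_div_iff₀ hb0]
    linarith
  have ht2 : t - ρ < 1 / b := by
    have h1 : (m:ℝ) < b * (w + ρ) + 1 := Int.ceil_lt_add_one _
    have h2 : (m:ℝ) / b < (w + ρ) + 1 / b := by
      rw [div_lt_iff₀ hb0, add_mul, div_mul_cancel₀ _ hb0.ne']
      linarith
    rw [ht]; linarith
  set left : ℝ := (t - ρ) * b / v with hleft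
  have hl0 : 0 ≤ left := by
    rw [hleft]
    apply div_nonneg _ hv0.le
    apply mul_nonneg _ hb0.le
    linarith
  have hl1 : left < 1 / v := by
    rw [hleft]
    apply div_lt_div_of_pos_right _ hv0
    have := mul_lt_mul_of_pos_right ht2 hb0
    rwa [div_mul_cancel₀ _ hb0.ne'] at this
  obtain ⟨x, y, hxy⟩ := hcop
  -- `x * c + y * b = 1`
  set ls : ℤ := -m * x with hls
  set f : ℤ := ⌊(left + b - ls) / b⌋ with hf
  set L : ℤ := ls + b * f with hL
  have hL1 : (L:ℝ) ≤ left + b := by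
    have h1 : (f:ℝ) ≤ (left + b - ls) / b := Int.floor_le _
    rw [le_div_iff₀ hb0] at h1
    rw [hL]; push_cast; linarith
  have hL2 : left < (L:ℝ) := by
    have h1 : (left + b - ls) / b < (f:ℝ) + 1 := Int.lt_floor_add_one _
    rw [div_lt_iff₀ hb0] at h1
    rw [hL]; push_cast; linarith
  have hLpos : 0 < L := by
    have : (0:ℝ) < L := by linarith
    exact_mod_cast this
  obtain ⟨l, hl⟩ : ∃ l : ℕ, (l:ℤ) = L := ⟨L.toNat, Int.toNat_of_nonneg hLpos.le⟩
  have hlr : (l:ℝ) = L := by exact_mod_cast hl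
  refine ⟨l, ?_, m * y + c * f, ?_⟩
  · have : (l:ℝ) < N := by rw [hlr]; linarith
    exact_mod_cast this
  · have hz : z = (c + v) / b := by rw [hv]; field_simp; ring
    have hxyr : (x:ℝ) * c + y * b = 1 := by exact_mod_cast hxy
    have hkey : w + l * z - ((m * y + c * f : ℤ) : ℝ) = l * v / b - t := by
      rw [hz, ht, hlr, hL, hls]
      push_cast
      field_simp
      linear_combination (-(m:ℝ)) * hxyr
    rw [hkey, abs_lt]
    have h1 : (l:ℝ) * v / b > t - ρ := by
      rw [gt_iff_lt, lt_div_iff₀ hb0, hlr]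
      have h2 : left * v = (t - ρ) * b := by rw [hleft]; field_simp
      nlinarith
    have h3 : (l:ℝ) * v / b ≤ t - ρ + v := by
      rw [div_le_iff₀ hb0, hlr]
      have h2 : left * v = (t - ρ) * b := by rw [hleft]; field_simp
      nlinarith
    constructor <;> linarith

/-- If an arithmetic progression avoids the `ρ`-neighbourhood of the integers, its difference is
very close to a rational number with a small denominator. -/
lemma gap (w z ρ : ℝ) (N : ℕ) (hρ : 0 < ρ) (hN : 1 ≤ N)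
    (h : ∀ l : ℕ, l < N → ρ ≤ |(w + l * z) - round (w + l * z)|) :
    ∃ (b : ℕ) (c : ℤ), 1 ≤ b ∧ 2 * ρ * b ≤ 1 ∧ |b * z - c| * (N - b) < 1 := by
  have hρ2 : ρ ≤ 1/2 := (h 0 (by omega)).trans (abs_sub_round _)
  set B : ℕ := ⌊1/(2*ρ)⌋₊ with hB
  have hB1 : 0 < B := by
    rw [hB]
    apply Nat.floor_pos.2
    rw [le_div_iff₀ (by positivity)]
    linarith
  have hBle : (B:ℝ) ≤ 1/(2*ρ) := Nat.floor_le (by positivity)
  have hBlt : 1/(2*ρ) < (B:ℝ) + 1 := Nat.lt_floor_add_one _
  obtain ⟨r, hr1, hr2⟩ := Real.exists_rat_abs_sub_le_and_den_le z hB1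
  have hb1 : 1 ≤ r.den := r.pos
  have hbr : (0:ℝ) < r.den := by exact_mod_cast r.pos
  have hrz : (r:ℝ) = r.num / r.den := by exact_mod_cast (Rat.num_div_den r).symm
  have hcop : IsCoprime r.num (r.den:ℤ) := Rat.isCoprime_num_den r
  refine ⟨r.den, r.num, hb1, ?_, ?_⟩
  · have : (r.den:ℝ) ≤ 1/(2*ρ) := le_trans (by exact_mod_cast hr2) hBle
    rw [le_div_iff₀ (by positivity)] at this
    linarith
  · have hv2 : |(r.den:ℝ) * z - r.num| < 2*ρ := by
      have h1 : (r.den:ℝ) * z - r.num = r.den * (z - r) := by rw [hrz]; field_simp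
      rw [h1, abs_mul, abs_of_pos hbr]
      calc (r.den:ℝ) * |z - r| ≤ r.den * (1 / (((B:ℝ) + 1) * r.den)) := by gcongr
        _ = 1 / ((B:ℝ) + 1) := by field_simp
        _ < 2*ρ := by
          rw [div_lt_iff₀ (by positivity)]
          rw [div_lt_iff₀ (by positivity)] at hBlt
          linarith
    by_contra hcon
    push Not at hcon
    set v : ℝ := (r.den:ℝ) * z - r.num with hv
    have hv0 : v ≠ 0 := by
      intro h0
      rw [h0] at hcon
      norm_num at hcon
    have hvp : 0 < |v| := abs_pos.2 hv0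
    have hNb : 1/|v| + r.den ≤ N := by
      have : 1/|v| ≤ N - r.den := by
        rw [div_le_iff₀ hvp]; linarith
      linarith
    rcases lt_or_gt_of_ne hv0 with h1 | h1
    · rw [abs_of_neg h1] at hv2 hNb
      have e1 : (r.den:ℝ) * (-z) - ((-r.num : ℤ) : ℝ) = -v := by rw [hv]; push_cast; ring
      obtain ⟨l, hl, n, hn⟩ := gap_aux (-w) (-z) ρ N r.den (-r.num) hb1 hcop.neg_left
        (by rw [e1]; linarith) (by rw [e1]; linarith) (by rw [e1]; exact hNb)
      have h2 := (h l hl).trans (round_le (w + l * z) (-n))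
      have e2 : (w + l * z) - ((-n : ℤ) : ℝ) = -(-w + l * (-z) - n) := by push_cast; ring
      rw [e2, abs_neg] at h2
      linarith
    · rw [abs_of_pos h1] at hv2 hNb
      obtain ⟨l, hl, n, hn⟩ := gap_aux w z ρ N r.den r.num hb1 hcop h1 hv2 hNb
      have h2 := (h l hl).trans (round_le (w + l * z) n)
      linarith

end Pool.Agent.H238R3.UL
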