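import Pool.Agent.H238R3.UL.Poly

set_option autoImplicit false

/-!
# Uniform theorem on polynomial sequences
-/

namespace Pool.Agent.H238R3.UL

open Filter Topology Finset Complex Pool.Agent.H332R2.Lit Polynomial

/-- second moment along polynomial sequences -/
lemma second_momentP {n : ℕ} (F : Fin n → ℝ[X]) (h κ : ℝ) (hκ : 0 ≤ κ) (N : ℕ)
    (hd : ∀ i j, i ≠ j → ‖∑ l ∈ range N, e ((C h * (F i - F j)).eval (l:ℝ))‖ ≤ κ * N) :
    ∑ l ∈ range N, ‖∑ i, e (h * (F i).eval (l:ℝ))‖ ^ 2 ≤ n * N + n * n * (κ * N) := by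
  classical
  have h1 : ((∑ l ∈ range N, ‖∑ i, e (h * (F i).eval (l:ℝ))‖ ^ 2 : ℝ) : ℂ)
      = ∑ i : Fin n, ∑ j : Fin n, ∑ l ∈ range N, e ((C h * (F i - F j)).eval (l:ℝ)) := by
    rw [Complex.ofReal_sum]
    have : ∀ l ∈ range N, ((‖∑ i, e (h * (F i).eval (l:ℝ))‖ ^ 2 : ℝ) : ℂ)
        = ∑ i : Fin n, ∑ j : Fin n, e ((C h * (F i - F j)).eval (l:ℝ)) := by
      intro l _
      rw [normSq_sum]
      refine Finset.sum_congr rfl (fun i _ => Finset.sum_congr rfl (fun j _ => ?_))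
      congr 1
      simp only [eval_mul, eval_C, eval_sub]
      ring
    rw [Finset.sum_congr rfl this, Finset.sum_comm]
    refine Finset.sum_congr rfl (fun i _ => ?_)
    rw [Finset.sum_comm]
  have h2 : ‖((∑ l ∈ range N, ‖∑ i, e (h * (F i).eval (l:ℝ))‖ ^ 2 : ℝ) : ℂ)‖
      ≤ ∑ i : Fin n, ∑ j : Fin n, ((if i = j then (N : ℝ) else 0) + κ * N) := by
    rw [h1]
    refine (norm_sum_le _ _).trans (Finset.sum_le_sum fun i _ => ?_)
    refine (norm_sum_le _ _).trans (Finset.sum_le_sum fun j _ => ?_)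
    by_cases hij : i = j
    · subst hij
      simp only [sub_self, mul_zero, eval_zero, e_zero, if_true]
      rw [Finset.sum_const, Finset.card_range]
      simp only [nsmul_eq_mul, mul_one, Complex.norm_natCast]
      have : 0 ≤ κ * N := by positivity
      linarith
    · rw [if_neg hij, zero_add]
      exact hd i j hij
  have h3 : ∑ i : Fin n, ∑ j : Fin n, ((if i = j then (N : ℝ) else 0) + κ * N)
      = n * N + n * n * (κ * N) := by
    simp [Finset.sum_add_distrib, Finset.sum_ite_eq]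
    ring
  rw [h3] at h2
  rw [Complex.norm_real] at h2
  exact (le_abs_self _).trans h2

/-- uniform counting along polynomial sequences -/
theorem countP (d : ℕ) (ε δ : ℝ) (hε : 0 < ε) (hδ : 0 < δ) (R : ℕ) (hR : 1 / (4 * ε ^ 2) ≤ R)
    (n : ℕ) (hn : 2 * R * (R + 1) ^ 4 / δ + 1 ≤ (n:ℝ)) :
    ∃ M : ℕ, 1 ≤ M ∧ ∀ η : ℝ, 0 < η → ∃ N₀ : ℕ, ∀ F : Fin n → ℝ[X],
      (∀ i, (F i).natDegree ≤ d+1) →
      (∀ i j, i ≠ j → ∀ h ∈ Finset.Icc 1 (M*R),
        η ≤ |(h:ℝ) * ((F i).coeff (d+1) - (F j).coeff (d+1))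
          - round ((h:ℝ) * ((F i).coeff (d+1) - (F j).coeff (d+1)))|) →
      ∀ N ≥ N₀, ∀ S : Finset ℕ, S ⊆ range N →
      (∀ l ∈ S, ∃ γ : ℝ, ∀ i, ε ≤ |((F i).eval (l:ℝ) - γ) - round ((F i).eval (l:ℝ) - γ)|) →
      (S.card : ℝ) ≤ δ * N := by
  classical
  have hn0 : 0 < n := by
    have : (0 : ℝ) < n := lt_of_lt_of_le (by positivity) hn
    exact_mod_cast this
  have hn' : (0 : ℝ) < n := by exact_mod_cast hn0
  set κ : ℝ := δ / (2 * (R + 1) ^ 5) with hκ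
  have hκ0 : 0 < κ := by positivity
  obtain ⟨M, hM1, hM⟩ := weyl_unif d κ hκ0
  refine ⟨M, hM1, fun η hη => ?_⟩
  obtain ⟨N₀, hN₀⟩ := hM η hη
  refine ⟨N₀, fun F hF hsep N hN S hS hbad => ?_⟩
  have hn2 : 2 * R * (R + 1 : ℝ) ^ 4 ≤ δ * n := by
    have : 2 * R * (R + 1 : ℝ) ^ 4 / δ ≤ n := by linarith
    rw [div_le_iff₀ hδ] at this; linarith
  have hlow : ∀ l ∈ S, ((n : ℝ) / (R + 1) ^ 2) ^ 2 ≤
      ∑ h ∈ Finset.Icc 1 R, ‖∑ i : Fin n, e (h * (F i).eval (l:ℝ))‖ ^ 2 := by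
    intro l hl
    obtain ⟨γ, hγ⟩ := hbad l hl
    obtain ⟨h, hh, hle⟩ := gap_large hn0 (fun i : Fin n => (F i).eval (l:ℝ)) γ ε hε hγ R hR
    calc ((n : ℝ) / (R + 1) ^ 2) ^ 2 ≤ ‖∑ i : Fin n, e (h * (F i).eval (l:ℝ))‖ ^ 2 :=
          pow_le_pow_left₀ (by positivity) hle 2
      _ ≤ _ := Finset.single_le_sum
          (f := fun h : ℕ => ‖∑ i : Fin n, e (h * (F i).eval (l:ℝ))‖ ^ 2)
          (fun _ _ => by positivity) hh
  have hpair : ∀ h ∈ Finset.Icc 1 R, ∀ i j : Fin n, i ≠ j →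
      ‖∑ l ∈ range N, e ((C (h:ℝ) * (F i - F j)).eval (l:ℝ))‖ ≤ κ * N := by
    intro h hh i j hij
    obtain ⟨h1, h2⟩ := Finset.mem_Icc.1 hh
    refine hN₀ _ ?_ ?_ N hN
    · refine (natDegree_C_mul_le _ _).trans ?_
      refine (natDegree_sub_le _ _).trans (max_le (hF i) (hF j))
    · intro m hm
      obtain ⟨m1, m2⟩ := Finset.mem_Icc.1 hm
      have h3 := hsep i j hij (m*h) (by
        rw [Finset.mem_Icc]
        exact ⟨Nat.mul_pos (by omega) (by omega), Nat.mul_le_mul m2 h2⟩)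
      rw [coeff_C_mul, coeff_sub]
      rwa [Nat.cast_mul, mul_assoc] at h3
  have hsum : (S.card : ℝ) * ((n : ℝ) / (R + 1) ^ 2) ^ 2 ≤ R * (n * N + n * n * (κ * N)) := by
    calc (S.card : ℝ) * ((n : ℝ) / (R + 1) ^ 2) ^ 2
        = ∑ _l ∈ S, ((n : ℝ) / (R + 1) ^ 2) ^ 2 := by simp
      _ ≤ ∑ l ∈ S, ∑ h ∈ Finset.Icc 1 R, ‖∑ i : Fin n, e (h * (F i).eval (l:ℝ))‖ ^ 2 :=
          Finset.sum_le_sum hlow
      _ ≤ ∑ l ∈ range N, ∑ h ∈ Finset.Icc 1 R,
            ‖∑ i : Fin n, e (h * (F i).eval (l:ℝ))‖ ^ 2 :=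
          Finset.sum_le_sum_of_subset_of_nonneg hS
            (fun _ _ _ => Finset.sum_nonneg fun _ _ => by positivity)
      _ = ∑ h ∈ Finset.Icc 1 R, ∑ l ∈ range N,
            ‖∑ i : Fin n, e (h * (F i).eval (l:ℝ))‖ ^ 2 := Finset.sum_comm
      _ ≤ ∑ h ∈ Finset.Icc 1 R, ((n : ℝ) * N + n * n * (κ * N)) :=
          Finset.sum_le_sum fun h hh => second_momentP F h κ hκ0.le N (hpair h hh)
      _ = R * (n * N + n * n * (κ * N)) := by
          rw [Finset.sum_const, Nat.card_Icc, Nat.add_sub_cancel, nsmul_eq_mul]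
  have hR1 : (0 : ℝ) < (R + 1) ^ 4 := by positivity
  have h7 : (S.card : ℝ) * n ^ 2 ≤ (R + 1) ^ 4 * (R * (n * N + n * n * (κ * N))) := by
    have : (S.card : ℝ) * ((n : ℝ) / (R + 1) ^ 2) ^ 2 = (S.card : ℝ) * n ^ 2 / (R + 1) ^ 4 := by
      field_simp
    rw [this, div_le_iff₀ hR1] at hsum
    linarith
  have h8 : (R + 1 : ℝ) ^ 4 * (R * (n * N)) ≤ δ * N * n ^ 2 / 2 := by
    have : (R + 1 : ℝ) ^ 4 * (R * (n * N)) = (2 * R * (R + 1) ^ 4) * (n * N) / 2 := by ring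
    rw [this]
    have h9 := mul_le_mul_of_nonneg_right hn2 (show (0:ℝ) ≤ n * N by positivity)
    nlinarith
  have h10 : (R + 1 : ℝ) ^ 4 * (R * (n * n * (κ * N))) ≤ δ * N * n ^ 2 / 2 := by
    have hκ2 : κ * (2 * (R+1)^5) = δ := by rw [hκ]; field_simp
    have e1 : δ * N * n ^ 2 / 2 = (R+1)^4 * ((R+1) * (n * n * (κ * N))) := by
      rw [← hκ2]; ring
    rw [e1]
    have : (R:ℝ) ≤ R + 1 := by linarith
    gcongr
  have h11 : (S.card : ℝ) * n ^ 2 ≤ δ * N * n ^ 2 := by nlinarith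
  exact le_of_mul_le_mul_right h11 (by positivity)

/-- The main theorem: along every polynomial sequence with nonresonant leading coefficient most
terms are good, uniformly. -/
theorem mainP (d : ℕ) (ε δ : ℝ) (hε : 0 < ε) (hδ : 0 < δ) :
    ∃ N₀ : ℕ, ∀ (α : ℝ) (P : ℝ[X]), P.natDegree ≤ d+1 →
      (¬ ∃ U V W : ℤ, U ≠ 0 ∧ (U : ℝ) * P.coeff (d+1) = V * α + W) →
      ∀ N ≥ N₀, ∀ S : Finset ℕ, S ⊆ range N →
      (∀ l ∈ S, ¬ ∀ γ : ℝ, ∃ᶠ q : ℕ in atTop, (q : ℝ) * |q * α - round (q * α)|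
        * |(q * P.eval (l:ℝ) - γ) - round (q * P.eval (l:ℝ) - γ)| < ε) →
      (S.card : ℝ) ≤ δ * N := by
  classical
  obtain ⟨R0, hR0⟩ := exists_nat_ge (1 / (4 * ε ^ 2))
  obtain ⟨R, hRR, hR1⟩ : ∃ R : ℕ, 1 / (4 * ε ^ 2) ≤ R ∧ 1 ≤ R := ⟨R0 + 1, by push_cast; linarith,
    by omega⟩
  obtain ⟨n, hn⟩ := exists_nat_ge (2 * R * (R + 1) ^ 4 / δ + 1)
  obtain ⟨A, hA⟩ := exists_nat_ge (1 / ε)
  obtain ⟨M, hM1, hcount⟩ := countP d ε δ hε hδ R hRR n hn
  obtain ⟨η, b, hη, hb, hwin⟩ := window A n (M*R) (Nat.mul_pos hM1 hR1) (1/(2*((A:ℝ)+3)))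
    (by positivity)
  obtain ⟨N₀, hN₀⟩ := hcount η hη
  refine ⟨N₀, fun α P hP hno N hN S hS hl => ?_⟩
  by_cases hbad : ∀ᶠ q : ℕ in atTop, ε ≤ (q : ℝ) * |q * α - round (q * α)|
  swap
  · have hemp : S = ∅ := by
      rw [Finset.eq_empty_iff_forall_notMem]
      intro l hlS
      apply hl l hlS
      intro γ
      rw [not_eventually] at hbad
      refine hbad.mono fun q hq => ?_
      push Not at hq
      have h2 : |(q * P.eval (l:ℝ) - γ) - round (q * P.eval (l:ℝ) - γ)| ≤ 1 :=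
        (abs_sub_round _).trans (by norm_num)
      have h3 : 0 ≤ (q : ℝ) * |q * α - round (q * α)| := by positivity
      calc _ ≤ (q : ℝ) * |q * α - round (q * α)| * 1 := mul_le_mul_of_nonneg_left h2 h3
        _ < ε := by simpa using hq
    rw [hemp]
    simp only [Finset.card_empty, Nat.cast_zero]
    positivity
  have hα := irrational_of_bad hε hbad
  set β := P.coeff (d+1) with hβ
  obtain ⟨q, p, a, hq0, hq1, hqk, ha1, hqr, hpr, hsgn, hdet, ha⟩ := cf_data hα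
  have hqtend : Tendsto (fun k : ℕ => (q k).toNat) atTop atTop := by
    apply tendsto_atTop_mono (f := fun k : ℕ => k - 1)
    · intro k
      have h1 := hqk k
      omega
    · exact tendsto_sub_atTop_nat 1
  have hqn : ∀ k, (((q k).toNat : ℕ) : ℝ) = q k := by
    intro k
    have := Int.toNat_of_nonneg (hq0 k)
    exact_mod_cast this
  have hD1 : ∀ k, (q (k + 1) : ℝ) * |q k * α - p k| ≤ 1 := by
    intro k
    have h1 := hdet k
    have h3 : 0 ≤ (q k : ℝ) * |q (k + 1) * α - p (k + 1)| :=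
      mul_nonneg (by exact_mod_cast hq0 k) (abs_nonneg _)
    linarith
  have haA : ∀ᶠ k in atTop, a k ≤ A := by
    have h1 := hqtend.eventually hbad
    have h2 := (tendsto_add_atTop_nat 1).eventually h1
    filter_upwards [h2] with k hk
    rw [hqn] at hk
    have h3 : |(q (k + 1) : ℝ) * α - round ((q (k + 1) : ℝ) * α)|
        ≤ |(q (k + 1) : ℝ) * α - p (k + 1)| := round_le' _ _
    have hqpos : (0 : ℝ) ≤ q (k + 1) := by exact_mod_cast hq0 (k + 1)
    have h4 : ε ≤ (q (k + 1) : ℝ) * |(q (k + 1) : ℝ) * α - p (k + 1)| :=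
      hk.trans (mul_le_mul_of_nonneg_left h3 hqpos)
    have h5 := ha k
    have h6 := hD1 k
    have ha0 : (0 : ℝ) ≤ a k := by
      have := ha1 k
      exact_mod_cast (by omega : (0 : ℤ) ≤ a k)
    have h7 : (a k : ℝ) * ε ≤ 1 := by
      calc (a k : ℝ) * ε ≤ a k * ((q (k + 1) : ℝ) * |(q (k + 1) : ℝ) * α - p (k + 1)|) :=
            mul_le_mul_of_nonneg_left h4 ha0
        _ = q (k + 1) * (a k * |(q (k + 1) : ℝ) * α - p (k + 1)|) := by ring
        _ ≤ q (k + 1) * |q k * α - p k| := mul_le_mul_of_nonneg_left h5 hqpos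
        _ ≤ 1 := h6
    have h8 : (a k : ℝ) ≤ A := by
      refine le_trans ?_ hA
      rw [le_div_iff₀ hε]; exact h7
    exact_mod_cast h8
  obtain ⟨KA, hKA⟩ := eventually_atTop.1 haA
  -- far windows with well separated points
  have hfar : ∀ K, ∃ s : Finset ℕ, s.card = n ∧ (∀ i ∈ s, K ≤ i) ∧
      ∀ i ∈ s, ∀ j ∈ s, i ≠ j → ∀ h ∈ Finset.Icc 1 (M*R),
        η ≤ ‖h • (((q i * β : ℝ) : UnitAddCircle) - ((q j * β : ℝ) : UnitAddCircle))‖ := by
    intro K0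
    obtain ⟨K, hK1, hK2⟩ : ∃ K, K0 ≤ K ∧ KA ≤ K := ⟨max K0 KA, le_max_left _ _, le_max_right _ _⟩
    by_contra hcon
    apply hno
    have hrec : ∀ k, ((q (k+2) * β : ℝ) : UnitAddCircle)
        = a k • ((q (k+1) * β : ℝ) : UnitAddCircle) + ((q k * β : ℝ) : UnitAddCircle) := by
      intro k
      rw [← AddCircle.coe_zsmul, ← AddCircle.coe_add, hqr, zsmul_eq_mul]
      congr 1
      push_cast; ring
    have hw := hwin (fun k => a (K+k)) (fun k => ((q (K+k) * β : ℝ) : UnitAddCircle))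
      (fun k => ⟨ha1 _, hKA _ (by omega)⟩) (fun k => hrec (K+k)) (by
        rintro ⟨s, hs1, hs2⟩
        apply hcon
        refine ⟨s.map ⟨fun i => K + i, add_right_injective K⟩, by rw [Finset.card_map, hs1], ?_, ?_⟩
        · intro i hi
          obtain ⟨j, hj, rfl⟩ := Finset.mem_map.1 hi
          simp only [Function.Embedding.coeFn_mk]
          omega
        · intro i hi j hj hij h hh
          obtain ⟨i', hi', rfl⟩ := Finset.mem_map.1 hi
          obtain ⟨j', hj', rfl⟩ := Finset.mem_map.1 hj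
          simp only [Function.Embedding.coeFn_mk] at hij ⊢
          exact hs2 i' hi' j' hj' (fun hc => hij (by rw [hc])) h hh)
    refine relation_of_small q p a hq0 hq1 hqk ha1 hqr hpr hsgn hdet A haA b hb ?_
    filter_upwards [eventually_ge_atTop (K + n*n)] with k hk
    obtain ⟨m, rfl⟩ := Nat.exists_eq_add_of_le hk
    have := hw (n*n+m) (by omega)
    rwa [show K + (n*n+m) = K + n*n + m by omega] at this
  -- thresholds for the members of `S`
  have hthr : ∀ l ∈ S, ∃ K : ℕ, ∃ γ : ℝ, ∀ k, K ≤ k →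
      ε ≤ |(q k * P.eval (l:ℝ) - γ) - round (q k * P.eval (l:ℝ) - γ)| := by
    intro l hlS
    have h1 := hl l hlS
    push Not at h1
    obtain ⟨γ, hγ⟩ := h1
    have h2 := hqtend.eventually hγ
    obtain ⟨K, hK⟩ := eventually_atTop.1 h2
    refine ⟨K + 1, γ, fun k hk => ?_⟩
    obtain ⟨m, rfl⟩ := Nat.exists_eq_add_of_le hk
    have h3 := hK (K + 1 + m) (by omega)
    rw [hqn] at h3
    have hqpos : (0 : ℝ) ≤ q (K + 1 + m) := by exact_mod_cast hq0 _
    have hqq : (q (K + 1 + m) : ℝ) ≤ q (K + 1 + m + 1) := by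
      have e1 : K + 1 + m = (K + m) + 1 := by omega
      rw [e1]
      have g1 := hqr (K+m)
      have g2 := ha1 (K+m)
      have g3 := hq0 (K+m+1)
      have g4 := hq0 (K+m)
      have : q (K+m+1) ≤ q (K+m+2) := by nlinarith
      exact_mod_cast this
    have h4 : (q (K + 1 + m) : ℝ) * |(q (K + 1 + m) : ℝ) * α - round ((q (K + 1 + m) : ℝ) * α)|
        ≤ 1 := by
      calc _ ≤ (q (K + 1 + m) : ℝ) * |(q (K + 1 + m) : ℝ) * α - p (K + 1 + m)| :=
            mul_le_mul_of_nonneg_left (round_le' _ _) hqpos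
        _ ≤ (q (K + 1 + m + 1) : ℝ) * |(q (K + 1 + m) : ℝ) * α - p (K + 1 + m)| :=
            mul_le_mul_of_nonneg_right hqq (abs_nonneg _)
        _ ≤ 1 := hD1 _
    have h5 := abs_nonneg ((q (K + 1 + m) * P.eval (l:ℝ) - γ)
      - round (q (K + 1 + m) * P.eval (l:ℝ) - γ))
    calc ε ≤ _ := h3
      _ ≤ 1 * |(q (K + 1 + m) * P.eval (l:ℝ) - γ) - round (q (K + 1 + m) * P.eval (l:ℝ) - γ)| :=
          mul_le_mul_of_nonneg_right h4 h5
      _ = _ := one_mul _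
  choose! Kf γf hKf using hthr
  obtain ⟨s, hs1, hs2, hs3⟩ := hfar (∑ l ∈ S, Kf l)
  have hKle : ∀ l ∈ S, ∀ i ∈ s, Kf l ≤ i := fun l hlS i hi =>
    (Finset.single_le_sum (fun _ _ => Nat.zero_le _) hlS).trans (hs2 i hi)
  let g : Fin n → ℕ := fun i => s.orderEmbOfFin hs1 i
  have hg : ∀ i, g i ∈ s := fun i => s.orderEmbOfFin_mem hs1 i
  have hginj : ∀ i j, i ≠ j → g i ≠ g j := fun i j hij hc =>
    hij ((s.orderEmbOfFin hs1).injective hc)
  refine hN₀ (fun i => C (q (g i) : ℝ) * P) (fun i => (natDegree_C_mul_le _ _).trans hP) ?_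
    N hN S hS ?_
  · intro i j hij h hh
    have h1 := hs3 (g i) (hg i) (g j) (hg j) (hginj i j hij) h hh
    rw [← AddCircle.coe_sub, ← AddCircle.coe_nsmul, nsmul_eq_mul, UnitAddCircle.norm_eq] at h1
    simp only [coeff_C_mul]
    exact h1
  · intro l hlS
    refine ⟨γf l, fun i => ?_⟩
    have h1 := hKf l hlS (g i) (hKle l hlS (g i) (hg i))
    simp only [eval_mul, eval_C]
    exact h1

end Pool.Agent.H238R3.UL
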