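import Pool.Agent.H238R3.UL.Rel
import Pool.Agent.H469R2.NK.Vdc

set_option autoImplicit false

/-!
# Uniform Weyl sums and counting along polynomial sequences
-/

namespace Pool.Agent.H238R3.UL

open Filter Topology Finset Complex Pool.Agent.H332R2.Lit Polynomial

lemma diff_coeff (P : ℝ[X]) (d : ℕ) (hP : P.natDegree ≤ d+2) (h : ℝ) :
    (taylor h P - P).natDegree ≤ d+1 ∧ (taylor h P - P).coeff (d+1) = (d+2) * h * P.coeff (d+2) := by
  have key : ∀ k, (taylor h P).coeff k = (hasseDeriv k P).eval h := fun k => taylor_coeff _ _ _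
  have hdeg : ∀ k, (hasseDeriv k P).natDegree ≤ P.natDegree - k := natDegree_hasseDeriv_le P
  constructor
  · rw [natDegree_le_iff_coeff_eq_zero]
    intro N hN
    rw [coeff_sub, key]
    rcases Nat.lt_or_ge (d+2) N with h1 | h1
    · have e1 : P.coeff N = 0 := coeff_eq_zero_of_natDegree_lt (by omega)
      have e2 : hasseDeriv N P = 0 := hasseDeriv_eq_zero_of_lt_natDegree P N (by omega)
      rw [e1, e2]; simp
    · have hN2 : N = d+2 := by omega
      subst hN2
      have h2 := hdeg (d+2)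
      rw [eval_eq_sum_range' (n := 1) (by omega)]
      simp [hasseDeriv_coeff]
  · rw [coeff_sub, key]
    have h2 := hdeg (d+1)
    rw [eval_eq_sum_range' (n := 2) (by omega)]
    simp only [Finset.sum_range_succ, Finset.sum_range_zero, hasseDeriv_coeff]
    rw [show 1 + (d+1) = d+2 by omega, show (d+2).choose (d+1) = d+2 from Nat.choose_succ_self_right (d+1)]
    simp
    ring

/-- Uniform Weyl: the sum is small unless a bounded multiple of the leading coefficient is close to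
an integer. -/
theorem weyl_unif (d : ℕ) : ∀ κ : ℝ, 0 < κ → ∃ M : ℕ, 1 ≤ M ∧ ∀ η : ℝ, 0 < η → ∃ N₀ : ℕ,
    ∀ P : ℝ[X], P.natDegree ≤ d+1 →
      (∀ m ∈ Finset.Icc 1 M, η ≤ |(m:ℝ) * P.coeff (d+1) - round ((m:ℝ) * P.coeff (d+1))|) →
      ∀ N ≥ N₀, ‖∑ l ∈ range N, e (P.eval (l:ℝ))‖ ≤ κ * N := by
  induction d with
  | zero =>
    intro κ hκ
    refine ⟨1, le_rfl, fun η hη => ?_⟩
    obtain ⟨N₀, hN₀⟩ := exists_nat_ge (1/(2*η)/κ)
    refine ⟨N₀, fun P hP hm N hN => ?_⟩
    have h1 := hm 1 (by simp)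
    rw [Nat.cast_one, one_mul] at h1
    have h2 : ∀ l ∈ range N, e (P.eval (l:ℝ)) = e (P.coeff 0) * e ((l:ℝ) * P.coeff 1) := by
      intro l _
      rw [← e_add, eval_eq_sum_range' (n := 2) (by omega)]
      simp only [Finset.sum_range_succ, Finset.sum_range_zero]
      congr 1
      ring
    rw [Finset.sum_congr rfl h2, ← Finset.mul_sum, norm_mul, norm_e, one_mul]
    refine (norm_geom_le _ η hη h1 N).trans ?_
    have h3 : 1/(2*η)/κ ≤ N := hN₀.trans (by exact_mod_cast hN)
    rw [div_le_iff₀ hκ] at h3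
    linarith
  | succ d ih =>
    intro κ hκ
    obtain ⟨H, hH⟩ := exists_nat_ge (4/κ^2 + 1)
    have hH0 : (0:ℝ) < H := lt_of_lt_of_le (by positivity) hH
    obtain ⟨M', hM'1, hM'⟩ := ih (κ^2/8) (by positivity)
    refine ⟨(d+2)*H*M', ?_, fun η hη => ?_⟩
    · have : 0 < H := by exact_mod_cast hH0
      have : 0 < (d+2)*H*M' := by positivity
      omega
    obtain ⟨N₁, hN₁⟩ := hM' η hη
    refine ⟨N₁ + H + 1, fun P hP hm N hN => ?_⟩
    have hv := Pool.Agent.H469R2.NK.vdcH (fun l => e (P.eval (l:ℝ))) (fun l => (norm_e _).le) N H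
    have hNr : (0:ℝ) < N := by
      have : 0 < N := by omega
      exact_mod_cast this
    have hHN : (H:ℝ) ≤ N := by exact_mod_cast (by omega : H ≤ N)
    have hsum : ∀ l ∈ Ico 1 H, ‖∑ n ∈ range (N - l), e (P.eval ((n + l : ℕ):ℝ)) *
        (starRingEnd ℂ) (e (P.eval (n:ℝ)))‖ ≤ κ^2/8 * N := by
      intro l hl
      obtain ⟨hl1, hl2⟩ := Finset.mem_Ico.1 hl
      obtain ⟨hd1, hd2⟩ := diff_coeff P d hP (l:ℝ)
      have h1 := hN₁ (taylor (l:ℝ) P - P) hd1 (by
        intro m hm'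
        obtain ⟨m1, m2⟩ := Finset.mem_Icc.1 hm'
        have h2 := hm ((d+2)*l*m) (by
          rw [Finset.mem_Icc]
          constructor
          · have : 0 < (d+2)*l*m := by
              have : 0 < l := by omega
              have : 0 < m := by omega
              positivity
            omega
          · gcongr
            )
        rw [hd2]
        have e1 : ((((d+2)*l*m : ℕ)) : ℝ) * P.coeff (d+1+1) = (m:ℝ) * ((d+2) * l * P.coeff (d+2)) := by
          push_cast; ring
        rw [e1] at h2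
        exact h2) (N - l) (by omega)
      have e2 : ∀ n ∈ range (N-l), e (P.eval ((n + l : ℕ):ℝ)) * (starRingEnd ℂ) (e (P.eval (n:ℝ)))
          = e ((taylor (l:ℝ) P - P).eval (n:ℝ)) := by
        intro n _
        rw [conj_e, ← e_add, eval_sub, taylor_eval]
        congr 1
        push_cast; ring
      rw [Finset.sum_congr rfl e2]
      refine h1.trans ?_
      have : ((N - l : ℕ):ℝ) ≤ N := by exact_mod_cast Nat.sub_le _ _
      gcongr
    have h2 : ∑ l ∈ Ico 1 H, ‖∑ n ∈ range (N - l), e (P.eval ((n + l : ℕ):ℝ)) *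
        (starRingEnd ℂ) (e (P.eval (n:ℝ)))‖ ≤ H * (κ^2/8 * N) := by
      refine (Finset.sum_le_sum hsum).trans ?_
      rw [Finset.sum_const, Nat.card_Ico, nsmul_eq_mul]
      have : ((H - 1 : ℕ):ℝ) ≤ H := by exact_mod_cast Nat.sub_le _ _
      gcongr
    have h3 : (H:ℝ) * ‖∑ l ∈ range N, e (P.eval (l:ℝ))‖^2 ≤ (N + N) * (N + 2 * (H * (κ^2/8 * N))) := by
      refine hv.trans ?_
      gcongr
    have h4 : 4 ≤ κ^2 * H := by
      have : 4/κ^2 ≤ H := by linarith
      rw [div_le_iff₀ (by positivity)] at this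
      linarith
    have h5 : (H:ℝ) * ‖∑ l ∈ range N, e (P.eval (l:ℝ))‖^2 ≤ H * (κ * N)^2 := by
      refine h3.trans ?_
      have e3 : ((N:ℝ) + N) * (N + 2 * (H * (κ^2/8 * N))) = N^2 * (2 + κ^2 * H / 2) := by ring
      have e4 : (H:ℝ) * (κ * N)^2 = N^2 * (κ^2 * H) := by ring
      rw [e3, e4]
      gcongr
      linarith
    have h6 : ‖∑ l ∈ range N, e (P.eval (l:ℝ))‖^2 ≤ (κ * N)^2 := le_of_mul_le_mul_left h5 hH0
    exact (pow_le_pow_iff_left₀ (norm_nonneg _) (by positivity) two_ne_zero).1 h6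

end Pool.Agent.H238R3.UL
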