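import Pool.Agent.H238R3.UL.Sep

set_option autoImplicit false

/-!
# Small multiples of all `q_k β` force a rational relation
-/

namespace Pool.Agent.H238R3.UL

open Filter Topology Pool.Agent.H332R2.Lit

theorem relation_of_small {α β : ℝ} (q p a : ℕ → ℤ)
    (hq0 : ∀ k, 0 ≤ q k) (hq1 : ∀ k, 1 ≤ q (k + 1)) (hqk : ∀ k : ℕ, (k : ℤ) ≤ q k + 1)
    (ha1 : ∀ k, 1 ≤ a k)
    (hqr : ∀ k, q (k + 2) = a k * q (k + 1) + q k)
    (hpr : ∀ k, p (k + 2) = a k * p (k + 1) + p k)
    (hsgn : ∀ k, (q k * α - p k) * (q (k + 1) * α - p (k + 1)) < 0)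
    (hdet : ∀ k, (q (k + 1) : ℝ) * |q k * α - p k| + q k * |q (k + 1) * α - p (k + 1)| = 1)
    (A : ℕ) (haA : ∀ᶠ k in atTop, a k ≤ A) (b : ℕ) (hb : 0 < b)
    (hsm : ∀ᶠ k in atTop, ‖b • (((q k * β : ℝ)) : UnitAddCircle)‖ ≤ 1/(2*(A+3))) :
    ∃ U V W : ℤ, U ≠ 0 ∧ (U : ℝ) * β = V * α + W := by
  classical
  set D : ℕ → ℝ := fun k => q k * α - p k with hD
  set θ : ℕ → UnitAddCircle := fun k => ((q k * (b * β) : ℝ) : UnitAddCircle) with hθ
  have hθb : ∀ k, θ k = b • (((q k * β : ℝ)) : UnitAddCircle) := by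
    intro k
    simp only [hθ]
    rw [← AddCircle.coe_nsmul, nsmul_eq_mul]
    congr 1; ring
  have hlift : ∀ k, ∃ r : ℝ, (r : UnitAddCircle) = θ k ∧ |r| = ‖θ k‖ := fun k => lift_small _
  choose r hr1 hr2 using hlift
  have hA0 : (0:ℝ) < 2*((A:ℝ)+3) := by positivity
  have hrs : ∀ᶠ k in atTop, |r k| ≤ 1/(2*(A+3)) := by
    filter_upwards [hsm] with k hk
    rw [hr2, hθb]; exact hk
  have hθr : ∀ k, θ (k + 2) - a k • θ (k + 1) - θ k = 0 := by
    intro k
    simp only [hθ]
    rw [← AddCircle.coe_zsmul, ← AddCircle.coe_sub, ← AddCircle.coe_sub]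
    rw [hqr]
    have : (((a k * q (k + 1) + q k : ℤ) : ℝ) * (b * β) - a k • ((q (k + 1) : ℝ) * (b * β))
        - q k * (b * β)) = 0 := by
      rw [zsmul_eq_mul]; push_cast; ring
    rw [this]; rfl
  have hrec : ∀ᶠ k in atTop, r (k + 2) = a k * r (k + 1) + r k := by
    have h2 := (tendsto_add_atTop_nat 1).eventually hrs
    have h3 := (tendsto_add_atTop_nat 2).eventually hrs
    filter_upwards [hrs, h2, h3, haA] with k e0 e1 e2 hak
    have hakr : (a k : ℝ) ≤ A := by exact_mod_cast hak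
    have hakr0 : (0 : ℝ) ≤ a k := by
      have := ha1 k
      exact_mod_cast (by omega : (0:ℤ) ≤ a k)
    have hsum : |r (k + 2) - a k * r (k + 1) - r k| < 1 := by
      have t1 : |r (k + 2) - a k * r (k + 1) - r k| ≤ |r (k + 2)| + a k * |r (k + 1)| + |r k| := by
        calc _ ≤ |r (k + 2) - a k * r (k + 1)| + |r k| := abs_sub _ _
          _ ≤ |r (k + 2)| + |a k * r (k + 1)| + |r k| := by gcongr; exact abs_sub _ _
          _ = _ := by rw [abs_mul, abs_of_nonneg hakr0]
      have t2 : (a k : ℝ) * |r (k + 1)| ≤ A * (1/(2*(A+3))) :=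
        mul_le_mul hakr e1 (abs_nonneg _) (by positivity)
      have t3 : (A:ℝ) * (1/(2*(A+3))) + 2 * (1/(2*(A+3))) < 1 := by
        rw [← add_mul, mul_one_div, div_lt_one hA0]
        have : (0:ℝ) ≤ A := Nat.cast_nonneg _
        linarith
      linarith
    have hcoe : ((r (k + 2) - a k * r (k + 1) - r k : ℝ) : UnitAddCircle) = 0 := by
      rw [AddCircle.coe_sub, AddCircle.coe_sub]
      have : (((a k : ℝ) * r (k + 1) : ℝ) : UnitAddCircle)
          = a k • ((r (k + 1) : ℝ) : UnitAddCircle) := by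
        rw [← AddCircle.coe_zsmul, zsmul_eq_mul]
      rw [this, hr1, hr1, hr1]
      exact hθr k
    have h7 := zero_of_coe_zero hcoe hsum
    linarith
  obtain ⟨K, hK⟩ := eventually_atTop.1 hrec
  have hDr : ∀ k, D (k + 2) = a k * D (k + 1) + D k := by
    intro k
    simp only [hD]
    rw [hqr, hpr]; push_cast; ring
  have hD1 : ∀ k, (q (k + 1) : ℝ) * |D k| ≤ 1 := by
    intro k
    have h1 := hdet k
    have h3 : 0 ≤ (q k : ℝ) * |q (k + 1) * α - p (k + 1)| :=
      mul_nonneg (by exact_mod_cast hq0 k) (abs_nonneg _)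
    simp only [hD]; linarith
  have hDne : ∀ k, D k ≠ 0 := by
    intro k hk
    have := hsgn k
    simp only [hD] at hk
    rw [hk, zero_mul] at this
    exact lt_irrefl _ this
  have hDlim : ∀ μ : ℝ, 0 < μ → ∀ᶠ k in atTop, |D k| < μ := by
    intro μ hμ
    obtain ⟨M, hM⟩ := exists_nat_gt (1/μ)
    filter_upwards [eventually_ge_atTop M] with k hk
    have h1 := hD1 k
    have h2 : (M:ℝ) ≤ q (k+1) := by
      have h := hqk (k+1)
      push_cast at h
      have : (M:ℤ) ≤ q (k+1) := by
        have : (M:ℤ) ≤ k := by exact_mod_cast hk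
        linarith
      exact_mod_cast this
    have h3 : 1/μ < q (k+1) := hM.trans_le h2
    rw [div_lt_iff₀ hμ] at h3
    by_contra hcon
    push Not at hcon
    have h4 : (0:ℝ) < q (k+1) := by
      by_contra h5
      push Not at h5
      nlinarith
    nlinarith
  have hW : ∀ m, |r (K + m + 1) * D (K + m) - r (K + m) * D (K + m + 1)|
      = |r (K + 1) * D K - r K * D (K + 1)| := by
    intro m
    induction m with
    | zero => rfl
    | succ m ih =>
      rw [← ih, ← abs_neg]
      congr 1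
      have e1 : r (K + (m + 1) + 1) = a (K + m) * r (K + m + 1) + r (K + m) :=
        hK (K + m) (by omega)
      have e2 : D (K + (m + 1) + 1) = a (K + m) * D (K + m + 1) + D (K + m) := hDr (K + m)
      rw [e1, e2]
      have e3 : K + (m + 1) = K + m + 1 := by omega
      rw [e3]; ring
  have hrs1 : ∀ᶠ k in atTop, |r k| ≤ 1 := by
    filter_upwards [hrs] with k hk
    refine hk.trans ?_
    rw [div_le_one hA0]
    have : (0:ℝ) ≤ A := Nat.cast_nonneg _
    linarith
  have hW0 : |r (K + 1) * D K - r K * D (K + 1)| = 0 := by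
    apply le_antisymm _ (abs_nonneg _)
    apply le_of_forall_pos_lt_add
    intro η hη
    rw [zero_add]
    have h1 := hDlim (η / 2) (by linarith)
    have h2 := (tendsto_add_atTop_nat 1).eventually h1
    have h3 := (tendsto_add_atTop_nat 1).eventually hrs1
    obtain ⟨k, hk, hk1, hk3, hk4, hk2⟩ :=
      (h1.and (h2.and (hrs1.and (h3.and (eventually_ge_atTop K))))).exists
    obtain ⟨m, rfl⟩ := Nat.exists_eq_add_of_le hk2
    rw [← hW m]
    calc |r (K + m + 1) * D (K + m) - r (K + m) * D (K + m + 1)|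
        ≤ |r (K + m + 1) * D (K + m)| + |r (K + m) * D (K + m + 1)| := abs_sub _ _
      _ ≤ |D (K + m)| + |D (K + m + 1)| := by
          rw [abs_mul, abs_mul]
          have := mul_le_mul_of_nonneg_right hk4 (abs_nonneg (D (K + m)))
          have := mul_le_mul_of_nonneg_right hk3 (abs_nonneg (D (K + m + 1)))
          linarith
      _ < η := by linarith
  set B : ℝ := r K / D K with hB
  have hrB : ∀ m, r (K + m) = B * D (K + m) := by
    intro m
    induction m with
    | zero => rw [hB]; field_simp [hDne K]; rfl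
    | succ m ih =>
      have h1 : |r (K + m + 1) * D (K + m) - r (K + m) * D (K + m + 1)| = 0 := by
        rw [hW m, hW0]
      have h2 := abs_eq_zero.1 h1
      rw [ih] at h2
      have h3 : (r (K + m + 1) - B * D (K + m + 1)) * D (K + m) = 0 := by linarith
      rcases mul_eq_zero.1 h3 with h | h
      · have e3 : K + (m + 1) = K + m + 1 := by omega
        rw [e3]; linarith
      · exact absurd h (hDne _)
  -- so `θ` tends to zero
  have hlim : Tendsto θ atTop (𝓝 0) := by
    rw [Metric.tendsto_atTop]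
    intro μ hμ
    have h1 := hDlim (μ/(|B|+1)) (by positivity)
    obtain ⟨N, hN⟩ := eventually_atTop.1 h1
    refine ⟨max N K, fun k hk => ?_⟩
    rw [dist_zero_right, ← hr2]
    obtain ⟨m, rfl⟩ := Nat.exists_eq_add_of_le ((le_max_right _ _).trans hk)
    rw [hrB m, abs_mul]
    have h2 := hN (K+m) ((le_max_left _ _).trans hk)
    rw [lt_div_iff₀ (by positivity)] at h2
    nlinarith [abs_nonneg B, abs_nonneg (D (K+m))]
  have hfin : {x : UnitAddCircle | MapClusterPt x atTop
      (fun k => ((q k * (b * β) : ℝ) : UnitAddCircle))}.Finite := by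
    refine Set.Finite.subset (Set.finite_singleton 0) ?_
    intro x hx
    have hx' : MapClusterPt x atTop θ := hx
    rw [Set.mem_singleton_iff]
    by_contra hne
    have h1 : (𝓝 x) ⊓ (𝓝 (0:UnitAddCircle)) = ⊥ := by
      rw [← disjoint_iff]
      exact disjoint_nhds_nhds.2 hne
    have h2 : ClusterPt x (map θ atTop) := hx'
    have h3 : (𝓝 x ⊓ map θ atTop) ≤ 𝓝 x ⊓ 𝓝 0 := inf_le_inf_left _ hlim
    rw [h1, le_bot_iff] at h3
    exact h2.ne h3
  obtain ⟨U, V, W, hU, h⟩ := relation_of_finite (β := b * β) q p a hq0 hq1 hqk ha1 hqr hpr hsgn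
    hdet A haA hfin
  refine ⟨U * b, V, W, mul_ne_zero hU (by exact_mod_cast hb.ne'), ?_⟩
  push_cast
  rw [← h]; ring

end Pool.Agent.H238R3.UL
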