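import Pool.Agent.H332R2.Lit.Main

set_option autoImplicit false

/-!
# Orbits of the continued fraction recurrence on the circle: either many well separated points, or
all points are close to torsion points of bounded order
-/

namespace Pool.Agent.H238R3.UL

open Finset

/-- integer solutions of the recurrence -/
def sq (a : ℕ → ℤ) (x y : ℤ) : ℕ → ℤ
  | 0 => x
  | 1 => y
  | (t+2) => a t * sq a x y (t+1) + sq a x y t

lemma sq_expand {G : Type*} [AddCommGroup G] (a : ℕ → ℤ) (y : ℕ → G)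
    (hy : ∀ k, y (k+2) = a k • y (k+1) + y k) (t : ℕ) :
    y t = sq a 1 0 t • y 0 + sq a 0 1 t • y 1 := by
  induction t using Nat.twoStepInduction with
  | zero => simp [sq]
  | one => simp [sq]
  | more t h1 h2 =>
    rw [hy, h2, h1]
    simp only [sq, add_smul, mul_smul, smul_add]
    abel

lemma sq_det (a : ℕ → ℤ) (t : ℕ) :
    sq a 1 0 t * sq a 0 1 (t+1) - sq a 0 1 t * sq a 1 0 (t+1) = (-1)^t := by
  induction t with
  | zero => simp [sq]
  | succ t ih =>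
    simp only [sq] at ih ⊢
    rw [pow_succ]
    linear_combination -ih

lemma sq_bound (a : ℕ → ℤ) (A : ℕ) (ha : ∀ k, 1 ≤ a k ∧ a k ≤ A) (t : ℕ) :
    (0 ≤ sq a 1 0 t ∧ sq a 1 0 t ≤ ((A:ℤ)+1)^t) ∧ (0 ≤ sq a 0 1 t ∧ sq a 0 1 t ≤ ((A:ℤ)+1)^t) := by
  have hA : (0:ℤ) ≤ A := Int.natCast_nonneg _
  induction t using Nat.twoStepInduction with
  | zero => simp [sq]
  | one => simp [sq, hA]; omega
  | more t h1 h2 =>
    obtain ⟨⟨a1, a2⟩, ⟨a3, a4⟩⟩ := h1
    obtain ⟨⟨b1, b2⟩, ⟨b3, b4⟩⟩ := h2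
    obtain ⟨c1, c2⟩ := ha t
    have e : ((A:ℤ)+1)^(t+2) = A * ((A:ℤ)+1)^(t+1) + ((A:ℤ)+1)^(t+1) := by ring
    have e2 : ((A:ℤ)+1)^t ≤ ((A:ℤ)+1)^(t+1) := pow_le_pow_right₀ (by omega) (by omega)
    simp only [sq]
    refine ⟨⟨by positivity, ?_⟩, ⟨by positivity, ?_⟩⟩
    · rw [e]
      have : a t * sq a 1 0 (t+1) ≤ A * ((A:ℤ)+1)^(t+1) := mul_le_mul c2 b2 b1 hA
      linarith
    · rw [e]
      have : a t * sq a 0 1 (t+1) ≤ A * ((A:ℤ)+1)^(t+1) := mul_le_mul c2 b4 b3 hA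
      linarith

lemma sq_low (a : ℕ → ℤ) (A : ℕ) (ha : ∀ k, 1 ≤ a k ∧ a k ≤ A) (t : ℕ) :
    1 ≤ sq a 0 1 (t+1) ∧ 1 ≤ sq a 1 0 (t+2) ∧ 2 ≤ sq a 0 1 (t+3) := by
  have h := fun t => sq_bound a A ha t
  have h1 : ∀ t, 1 ≤ sq a 0 1 (t+1) := by
    intro t
    induction t with
    | zero => simp [sq]
    | succ t ih =>
      have e : sq a 0 1 (t+1+1) = a t * sq a 0 1 (t+1) + sq a 0 1 t := rfl
      rw [e]
      have := (ha t).1
      have := (h t).2.1
      nlinarith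
  have h2 : ∀ t, 1 ≤ sq a 1 0 (t+2) := by
    intro t
    cases t with
    | zero => simp [sq]
    | succ t =>
      induction t with
      | zero =>
        have : sq a 1 0 3 = a 1 * (a 0 * 0 + 1) + 0 := rfl
        change 1 ≤ sq a 1 0 3
        rw [this]
        have := (ha 1).1
        linarith
      | succ t ih =>
        have e : sq a 1 0 (t+1+1+2) = a (t+2) * sq a 1 0 (t+1+2) + sq a 1 0 (t+2) := rfl
        rw [e]
        have := (ha (t+2)).1
        have := (h (t+2)).1.1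
        nlinarith
  refine ⟨h1 t, h2 t, ?_⟩
  have e : sq a 0 1 (t+3) = a (t+1) * sq a 0 1 (t+2) + sq a 0 1 (t+1) := rfl
  rw [e]
  have := (ha (t+1)).1
  have := h1 t
  have := h1 (t+1)
  nlinarith

/-- the determinant of `M - 1` -/
def dl (a : ℕ → ℤ) (t : ℕ) : ℤ :=
  (sq a 1 0 t - 1) * (sq a 0 1 (t+1) - 1) - sq a 0 1 t * sq a 1 0 (t+1)

lemma dl_bound (a : ℕ → ℤ) (A : ℕ) (ha : ∀ k, 1 ≤ a k ∧ a k ≤ A) (t P : ℕ) (ht : 1 ≤ t)
    (htP : t ≤ P) : dl a t ≠ 0 ∧ (dl a t).natAbs ≤ 2*(A+1)^(P+1) := by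
  have hd : dl a t = (-1)^t + 1 - sq a 1 0 t - sq a 0 1 (t+1) := by
    have := sq_det a t
    unfold dl
    linear_combination this
  have hA : (0:ℤ) ≤ A := Int.natCast_nonneg _
  have b1 := (sq_bound a A ha t).1
  have b2 := (sq_bound a A ha (t+1)).2
  have p1 : ((A:ℤ)+1)^t ≤ ((A:ℤ)+1)^(P+1) := pow_le_pow_right₀ (by omega) (by omega)
  have p2 : ((A:ℤ)+1)^(t+1) ≤ ((A:ℤ)+1)^(P+1) := pow_le_pow_right₀ (by omega) (by omega)
  have hneg : dl a t ≤ -1 := by
    rw [hd]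
    rcases Nat.even_or_odd t with h | h
    · obtain ⟨s, rfl⟩ : ∃ s, t = s + 2 := by
        rcases h with ⟨r, hr⟩
        exact ⟨t - 2, by omega⟩
      rw [h.neg_one_pow]
      obtain ⟨_, l2, l3⟩ := sq_low a A ha s
      have : sq a 0 1 (s+2+1) = sq a 0 1 (s+3) := rfl
      rw [this]
      linarith
    · rw [h.neg_one_pow]
      have := (sq_low a A ha t).1
      linarith
  have hlo : -(2 * ((A:ℤ)+1)^(P+1)) ≤ dl a t := by
    rw [hd]
    have : (-1:ℤ) ≤ (-1)^t := by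
      rcases neg_one_pow_eq_or ℤ t with h | h <;> rw [h] <;> norm_num
    linarith
  refine ⟨by omega, ?_⟩
  have h3 : ((dl a t).natAbs : ℤ) ≤ 2 * ((A:ℤ)+1)^(P+1) := by
    rw [Int.natCast_natAbs, abs_of_nonpos (by linarith)]
    linarith
  exact_mod_cast h3

/-- two close pairs give nearly torsion points -/
lemma torsion (a : ℕ → ℤ) (A : ℕ) (ha : ∀ k, 1 ≤ a k ∧ a k ≤ A) (y : ℕ → UnitAddCircle)
    (hy : ∀ k, y (k+2) = a k • y (k+1) + y k) (t P D : ℕ) (ht : 1 ≤ t) (htP : t ≤ P) (κ : ℝ)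
    (h0 : ‖D • (y t - y 0)‖ ≤ κ) (h1 : ‖D • (y (t+1) - y 1)‖ ≤ κ) :
    ‖(((2*(A+1)^(P+1)).factorial * D) • y 0)‖ ≤ (2*(A+1)^(P+1)).factorial * (2*(A+1)^(P+1)) * κ ∧
    ‖(((2*(A+1)^(P+1)).factorial * D) • y 1)‖ ≤ (2*(A+1)^(P+1)).factorial * (2*(A+1)^(P+1)) * κ := by
  obtain ⟨hne, hle⟩ := dl_bound a A ha t P ht htP
  set G : ℕ := 2*(A+1)^(P+1) with hG
  have hA : (0:ℤ) ≤ A := Int.natCast_nonneg _
  have hκ : 0 ≤ κ := (norm_nonneg _).trans h0
  have hdvd : (dl a t).natAbs ∣ G.factorial := Nat.dvd_factorial (Int.natAbs_pos.2 hne) hle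
  obtain ⟨c, hc⟩ := hdvd
  have hcle : c ≤ G.factorial := by
    rw [hc]
    exact Nat.le_mul_of_pos_left _ (Int.natAbs_pos.2 hne)
  have b1 := (sq_bound a A ha t)
  have b2 := (sq_bound a A ha (t+1))
  have p1 : ((A:ℤ)+1)^t ≤ ((A:ℤ)+1)^(P+1) := pow_le_pow_right₀ (by omega) (by omega)
  have p2 : ((A:ℤ)+1)^(t+1) ≤ ((A:ℤ)+1)^(P+1) := pow_le_pow_right₀ (by omega) (by omega)
  have et := sq_expand a y hy t
  have et1 := sq_expand a y hy (t+1)
  -- general bound
  have key : ∀ (z : UnitAddCircle) (r s : ℤ), |r| + |s| ≤ 2*((A:ℤ)+1)^(P+1) →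
      dl a t • z = r • (y t - y 0) + s • (y (t+1) - y 1) →
      ‖(G.factorial * D) • z‖ ≤ G.factorial * G * κ := by
    intro z r s hrs hz
    have e1 : ‖dl a t • (D • z)‖ ≤ G * κ := by
      have e2 : dl a t • (D • z) = r • (D • (y t - y 0)) + s • (D • (y (t+1) - y 1)) := by
        rw [smul_comm (dl a t) D z, hz, smul_add, smul_comm D r, smul_comm D s]
      rw [e2]
      have hGr : (|(r:ℝ)| + |(s:ℝ)|) ≤ (G:ℝ) := by
        have : ((|r| + |s| : ℤ) : ℝ) ≤ ((2*((A:ℤ)+1)^(P+1) : ℤ) : ℝ) := by exact_mod_cast hrs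
        rw [hG]; push_cast at this ⊢; exact this
      calc ‖r • (D • (y t - y 0)) + s • (D • (y (t+1) - y 1))‖
          ≤ ‖r • (D • (y t - y 0))‖ + ‖s • (D • (y (t+1) - y 1))‖ := norm_add_le _ _
        _ ≤ ‖r‖ * ‖D • (y t - y 0)‖ + ‖s‖ * ‖D • (y (t+1) - y 1)‖ :=
            add_le_add (norm_zsmul_le _ _) (norm_zsmul_le _ _)
        _ ≤ |(r:ℝ)| * κ + |(s:ℝ)| * κ := by
            rw [Int.norm_eq_abs, Int.norm_eq_abs]
            gcongr
        _ = (|(r:ℝ)| + |(s:ℝ)|) * κ := by ring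
        _ ≤ G * κ := by gcongr
    have e3 : ‖(G.factorial * D) • z‖ = ‖c • (dl a t • (D • z))‖ := by
      have e4 : (dl a t).natAbs • (D • z) = dl a t • (D • z) ∨
          (dl a t).natAbs • (D • z) = -(dl a t • (D • z)) := by
        rcases Int.natAbs_eq (dl a t) with h | h
        · left
          conv_rhs => rw [h]
          rw [natCast_zsmul]
        · right
          conv_rhs => rw [h]
          rw [neg_smul, neg_neg, natCast_zsmul]
      rw [hc, mul_smul, mul_comm, mul_smul]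
      rcases e4 with e4 | e4
      · rw [e4]
      · rw [e4, smul_neg, norm_neg]
    rw [e3]
    calc ‖c • (dl a t • (D • z))‖ ≤ c * ‖dl a t • (D • z)‖ := norm_nsmul_le
      _ ≤ G.factorial * (G * κ) := by
          gcongr
      _ = G.factorial * G * κ := by ring
  refine ⟨?_, ?_⟩
  · have hk := key (y 0) (sq a 0 1 (t+1) - 1) (-(sq a 0 1 t)) ?_ ?_
    · convert hk using 2
      rw [hG]; push_cast; ring
    · have l := (sq_low a A ha t).1
      rw [abs_of_nonneg (by linarith), abs_neg, abs_of_nonneg b1.2.1]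
      linarith [b1.2.2, b2.2.2]
    · rw [et, et1]
      unfold dl
      simp only [sub_smul, mul_smul, smul_sub, smul_add, neg_smul, one_smul]
      simp only [← mul_smul]
      rw [mul_comm (sq a 0 1 (t+1)) (sq a 1 0 t), mul_comm (sq a 0 1 (t+1)) (sq a 0 1 t)]
      abel
  · have hk := key (y 1) (-(sq a 1 0 (t+1))) (sq a 1 0 t - 1) ?_ ?_
    · convert hk using 2
      rw [hG]; push_cast; ring
    · rw [abs_neg, abs_of_nonneg b2.1.1]
      rcases le_or_gt 1 (sq a 1 0 t) with h | h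
      · rw [abs_of_nonneg (by linarith)]
        linarith [b1.1.2, b2.1.2]
      · have h5 : sq a 1 0 t = 0 := by have := b1.1.1; omega
        rw [h5]
        have : (1:ℤ) ≤ ((A:ℤ)+1)^(P+1) := one_le_pow₀ (by omega)
        norm_num
        linarith [b2.1.2]
    · rw [et, et1]
      unfold dl
      simp only [sub_smul, mul_smul, smul_sub, smul_add, neg_smul, one_smul]
      simp only [← mul_smul]
      rw [mul_comm (sq a 1 0 (t+1)) (sq a 1 0 t), mul_comm (sq a 1 0 (t+1)) (sq a 0 1 t)]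
      abel

/-- maximal separated sets -/
lemma cells (y : ℕ → UnitAddCircle) (n R : ℕ) (hR : 1 ≤ R) (η : ℝ) (hη : 0 < η)
    (hsep : ¬ ∃ s : Finset ℕ, s.card = n ∧ ∀ i ∈ s, ∀ j ∈ s, i ≠ j → ∀ h ∈ Finset.Icc 1 R,
      η ≤ ‖h • (y i - y j)‖) :
    ∃ s : Finset ℕ, s.card < n ∧ ∀ k, ∃ i ∈ s, ‖R.factorial • (y k - y i)‖ ≤ R.factorial * η := by
  classical
  let Pr : ℕ → Prop := fun m => ∃ s : Finset ℕ, s.card = m ∧
    ∀ i ∈ s, ∀ j ∈ s, i ≠ j → ∀ h ∈ Finset.Icc 1 R, η ≤ ‖h • (y i - y j)‖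
  have h0 : Pr 0 := ⟨∅, rfl, by simp⟩
  have hm : Pr (Nat.findGreatest Pr n) := Nat.findGreatest_spec (Nat.zero_le n) h0
  have hmn : Nat.findGreatest Pr n ≤ n := Nat.findGreatest_le n
  have hne : Nat.findGreatest Pr n ≠ n := by
    intro h
    rw [h] at hm
    exact hsep hm
  have hlt : Nat.findGreatest Pr n < n := lt_of_le_of_ne hmn hne
  have hnext : ¬ Pr (Nat.findGreatest Pr n + 1) :=
    Nat.findGreatest_is_greatest (Nat.lt_succ_self _) (by omega)
  obtain ⟨s, hs, hs2⟩ := hm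
  refine ⟨s, by omega, fun k => ?_⟩
  by_contra hcon
  push Not at hcon
  apply hnext
  -- `k` is separated from all of `s`
  have hksep : ∀ i ∈ s, ∀ h ∈ Finset.Icc 1 R, η ≤ ‖h • (y k - y i)‖ := by
    intro i hi h hh
    by_contra hlt2
    push Not at hlt2
    obtain ⟨h1, h2⟩ := Finset.mem_Icc.1 hh
    obtain ⟨c, hc⟩ := Nat.dvd_factorial (by omega : 0 < h) h2
    have hc2 : c ≤ R.factorial := by
      rw [hc]; exact Nat.le_mul_of_pos_left _ (by omega)
    have h3 := hcon i hi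
    have h4 : ‖R.factorial • (y k - y i)‖ ≤ R.factorial * η := by
      rw [hc, mul_comm, mul_smul]
      calc ‖c • (h • (y k - y i))‖ ≤ c * ‖h • (y k - y i)‖ := norm_nsmul_le
        _ ≤ c * η := by gcongr
        _ ≤ ((c * h : ℕ) : ℝ) * η := by
            have : (c:ℝ) ≤ ((c * h : ℕ) : ℝ) := by
              exact_mod_cast Nat.le_mul_of_pos_right c (by omega)
            gcongr
    linarith
  have hks : k ∉ s := by
    intro hk
    have := hksep k hk 1 (by simp [hR])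
    simp at this
    linarith
  refine ⟨insert k s, by rw [Finset.card_insert_of_notMem hks, hs], ?_⟩
  intro i hi j hj hij h hh
  rcases Finset.mem_insert.1 hi with hi' | hi'
  · rcases Finset.mem_insert.1 hj with hj' | hj'
    · exact absurd (hi'.trans hj'.symm) hij
    · rw [hi']
      exact hksep j hj' h hh
  · rcases Finset.mem_insert.1 hj with hj' | hj'
    · have := hksep i hi' h hh
      rw [hj']
      rwa [← neg_sub, smul_neg, norm_neg] at this
    · exact hs2 i hi' j hj' hij h hh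

/-- The dichotomy: either `n` well separated points, or all points (from index `n²` on) are close to
torsion points. -/
lemma window (A n R : ℕ) (hR : 1 ≤ R) (τ : ℝ) (hτ : 0 < τ) :
    ∃ (η : ℝ) (b : ℕ), 0 < η ∧ 0 < b ∧ ∀ (a : ℕ → ℤ) (y : ℕ → UnitAddCircle),
      (∀ k, 1 ≤ a k ∧ a k ≤ A) → (∀ k, y (k+2) = a k • y (k+1) + y k) →
      (¬ ∃ s : Finset ℕ, s.card = n ∧ ∀ i ∈ s, ∀ j ∈ s, i ≠ j → ∀ h ∈ Finset.Icc 1 R,
        η ≤ ‖h • (y i - y j)‖) → ∀ k, n*n ≤ k → ‖b • y k‖ ≤ τ := by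
  classical
  set P : ℕ := n*n with hP
  set G : ℕ := 2*(A+1)^(P+1) with hG
  set D : ℕ := R.factorial with hD
  set b : ℕ := G.factorial * D with hb
  have hG0 : 0 < G := by positivity
  have hD0 : 0 < D := Nat.factorial_pos R
  have hb0 : 0 < b := Nat.mul_pos (Nat.factorial_pos G) hD0
  have hGr : (0:ℝ) < G := by exact_mod_cast hG0
  have hbr : (0:ℝ) < b := by exact_mod_cast hb0
  refine ⟨τ / (2 * b * G^2), b, by positivity, hb0, ?_⟩
  intro a y ha hy hsep k hk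
  set η : ℝ := τ / (2 * b * G^2) with hη
  have hη0 : 0 < η := by positivity
  obtain ⟨s, hs, hcell⟩ := cells y n R hR η hη0 hsep
  choose f hf1 hf2 using hcell
  -- pigeonhole
  obtain ⟨k0, hk0⟩ := Nat.exists_eq_add_of_le hk
  have hpig : ∃ i ∈ Finset.range (P+1), ∃ j ∈ Finset.range (P+1), i ≠ j ∧
      (fun i => (f (k0+i), f (k0+i+1))) i = (fun i => (f (k0+i), f (k0+i+1))) j := by
    refine Finset.exists_ne_map_eq_of_card_lt_of_maps_to (t := s ×ˢ s) ?_ ?_
    · rw [Finset.card_product, Finset.card_range]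
      have : s.card * s.card ≤ n * n := Nat.mul_le_mul hs.le hs.le
      omega
    · intro i _
      simp [hf1]
  obtain ⟨i, j, hi, hj, hij, hfij⟩ : ∃ i j, i ≤ P ∧ j ≤ P ∧ i < j ∧
      (f (k0+i) = f (k0+j) ∧ f (k0+i+1) = f (k0+j+1)) := by
    obtain ⟨i, hi, j, hj, hij, h⟩ := hpig
    have hi' := Finset.mem_range.1 hi
    have hj' := Finset.mem_range.1 hj
    have h2 := Prod.mk.inj h
    rcases lt_or_gt_of_ne hij with h3 | h3
    · exact ⟨i, j, by omega, by omega, h3, h2⟩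
    · exact ⟨j, i, by omega, by omega, h3, h2.1.symm, h2.2.symm⟩
  have hclose : ∀ u v : ℕ, f u = f v → ‖D • (y v - y u)‖ ≤ 2 * (D * η) := by
    intro u v huv
    have e : D • (y v - y u) = D • (y v - y (f v)) - D • (y u - y (f u)) := by
      rw [huv, ← smul_sub]; congr 1; abel
    rw [e]
    calc _ ≤ ‖D • (y v - y (f v))‖ + ‖D • (y u - y (f u))‖ := norm_sub_le _ _
      _ ≤ D * η + D * η := add_le_add (hf2 v) (hf2 u)
      _ = _ := by ring
  -- shifted sequences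
  set u := k0 + i with hu
  have hy' : ∀ t, (fun t => y (u+t)) (t+2) = (fun t => a (u+t)) t • (fun t => y (u+t)) (t+1)
      + (fun t => y (u+t)) t := fun t => hy (u+t)
  have ht := torsion (fun t => a (u+t)) A (fun t => ha (u+t)) (fun t => y (u+t)) hy' (j-i) P D
    (by omega) (by omega) (2 * (D * η)) (by
      have := hclose (k0+i) (k0+j) hfij.1
      have e : u + (j - i) = k0 + j := by omega
      simp only [e, add_zero]
      exact this) (by
      have := hclose (k0+i+1) (k0+j+1) hfij.2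
      have e : u + (j - i + 1) = k0 + j + 1 := by omega
      simp only [e]
      exact this)
  rw [← hG] at ht
  rw [← hb] at ht
  simp only [add_zero] at ht
  obtain ⟨t0, t1⟩ := ht
  -- propagate to k
  have hku : k = u + (P - i) := by omega
  have hex := sq_expand (fun t => a (u+t)) (fun t => y (u+t)) hy' (P-i)
  have hbd := sq_bound (fun t => a (u+t)) A (fun t => ha (u+t)) (P-i)
  simp only [add_zero] at hex
  rw [hku, hex, smul_add, smul_comm b, smul_comm b]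
  set w0 := sq (fun t => a (u+t)) 1 0 (P-i) with hw0
  set w1 := sq (fun t => a (u+t)) 0 1 (P-i) with hw1
  have hwle : ∀ w : ℤ, 0 ≤ w → w ≤ ((A:ℤ)+1)^(P-i) → ‖w‖ ≤ (G:ℝ)/2 := by
    intro w h1 h2
    rw [Int.norm_eq_abs, abs_of_nonneg (by exact_mod_cast h1)]
    have h3 : w ≤ ((A:ℤ)+1)^(P+1) := h2.trans (pow_le_pow_right₀ (by omega) (by omega))
    have h4 : (w:ℝ) ≤ ((A:ℝ)+1)^(P+1) := by exact_mod_cast h3
    rw [hG]; push_cast; linarith
  have hX : (G.factorial:ℝ) * G * (2 * (D * η)) = τ / G := by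
    rw [hη, hb]; push_cast
    have h1 : (G.factorial:ℝ) ≠ 0 := by exact_mod_cast (Nat.factorial_pos G).ne'
    have h2 : (D:ℝ) ≠ 0 := by exact_mod_cast hD0.ne'
    field_simp
  calc ‖w0 • (b • y u) + w1 • (b • y (u+1))‖
      ≤ ‖w0 • (b • y u)‖ + ‖w1 • (b • y (u+1))‖ := norm_add_le _ _
    _ ≤ ‖w0‖ * ‖b • y u‖ + ‖w1‖ * ‖b • y (u+1)‖ := add_le_add (norm_zsmul_le _ _) (norm_zsmul_le _ _)
    _ ≤ (G:ℝ)/2 * (G.factorial * G * (2 * (D * η))) + (G:ℝ)/2 * (G.factorial * G * (2 * (D * η))) := by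
        have q0 := hwle w0 hbd.1.1 hbd.1.2
        have q1 := hwle w1 hbd.2.1 hbd.2.2
        push_cast at t0 t1
        have g0 : (G:ℝ) = 2 * ((A:ℝ)+1)^(P+1) := by rw [hG]; push_cast; ring
        rw [← g0] at t0 t1
        gcongr
    _ = τ := by rw [hX]; field_simp; ring

end Pool.Agent.H238R3.UL
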