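import Pool.Agent.H332R2.Lit.Main
import Pool.Agent.H238R3.UL.Gap

set_option autoImplicit false

/-!
# Short arithmetic progressions: explicit bounds
-/

namespace Pool.Agent.H238R3.UL

open Filter Topology Pool.Agent.H332R2.Lit

/-- Explicit form of the theorem on arithmetic progressions. -/
theorem short (α β θ γ ε δ : ℝ) (hε : 0 < ε) (hε2 : ε ≤ 1/2) (hδ : 0 < δ) (N : ℕ)
    (hN : (1 / δ + 2) / (4 * ε ^ 2) + 1 / (2 * ε) ≤ N)
    (hα' : δ ≤ 2 * ε ∨ ∀ᶠ q : ℕ in atTop, δ ≤ (q : ℝ) * |q * α - round (q * α)|)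
    (hθ : ∀ b : ℕ, 1 ≤ b → 4 * ε ^ 2 * b ≤ 1 → ∀ U V : ℤ, (b : ℝ) * θ ≠ U + V * α) :
    ∃ l : ℕ, l < N ∧ ∃ᶠ q : ℕ in atTop, (q : ℝ) * |q * α - round (q * α)|
        * |(q * (β + l * θ) - γ) - round (q * (β + l * θ) - γ)| < ε := by
  classical
  set B : ℝ := 1/(2*ε) with hB
  have hB1 : 1 ≤ B := by
    rw [hB, le_div_iff₀ (by positivity)]; linarith
  set A : ℝ := 1/δ with hA
  have hA0 : 0 < A := by positivity
  have hNB : (A + 2) * B^2 + B ≤ N := by
    have : (A + 2) / (4 * ε ^ 2) + 1 / (2 * ε) = (A + 2) * B^2 + B := by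
      rw [hB]; field_simp; ring
    linarith
  have hB2 : (1:ℝ) ≤ B^2 := one_le_pow₀ hB1
  have hN1 : 1 ≤ N := by
    have : (1:ℝ) ≤ N := by nlinarith
    exact_mod_cast this
  by_contra hcon
  push Not at hcon
  have hev : ∀ᶠ q : ℕ in atTop, ∀ l ∈ Finset.range N, ε ≤ (q : ℝ) * |q * α - round (q * α)|
        * |(q * (β + l * θ) - γ) - round (q * (β + l * θ) - γ)| := by
    rw [Filter.eventually_all_finset]
    intro l hl
    exact hcon l (Finset.mem_range.1 hl)
  by_cases hα : Irrational α
  · obtain ⟨q, p, a, hq0, hq1, hqk, ha1, hqr, hpr, hsgn, hdet, hale⟩ := cf_data hα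
    -- the convergents tend to infinity
    have hqt : Tendsto (fun k => (q (k+1)).toNat) atTop atTop := by
      rw [tendsto_atTop]
      intro m
      filter_upwards [eventually_ge_atTop m] with k hk
      have := hqk (k+1)
      push_cast at this
      omega
    have hev2 := hqt.eventually hev
    have hcast : ∀ k, (((q (k+1)).toNat : ℕ) : ℝ) = (q (k+1) : ℝ) := by
      intro k
      have h1 : (((q (k+1)).toNat : ℕ) : ℤ) = q (k+1) := Int.toNat_of_nonneg (hq0 _)
      exact_mod_cast h1
    have hX : ∀ k, (a k : ℝ) * ((q (k+1) : ℝ) * |q (k+1) * α - round (q (k+1) * α)|) ≤ 1 := by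
      intro k
      have h1 := hdet (k+1)
      have h2 : |(q (k+1):ℝ) * α - round ((q (k+1):ℝ) * α)| ≤ |(q (k+1):ℝ) * α - p (k+1)| :=
        round_le _ _
      have h3 : (0:ℝ) ≤ (q (k+1) : ℝ) * |q (k+1+1) * α - p (k+1+1)| :=
        mul_nonneg (by exact_mod_cast hq0 _) (abs_nonneg _)
      have h4 : (a k : ℝ) * q (k+1) ≤ q (k+1+1) := by
        have h5 := hqr k
        have h6 := hq0 k
        have : a k * q (k+1) ≤ q (k+2) := by linarith
        exact_mod_cast this
      calc (a k : ℝ) * ((q (k+1) : ℝ) * |q (k+1) * α - round (q (k+1) * α)|)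
          = ((a k : ℝ) * q (k+1)) * |q (k+1) * α - round (q (k+1) * α)| := by ring
        _ ≤ q (k+1+1) * |(q (k+1):ℝ) * α - p (k+1)| := by
            apply mul_le_mul h4 h2 (abs_nonneg _)
            exact_mod_cast hq0 _
        _ ≤ 1 := by linarith
    -- far from the shifts
    have hfar : ∀ᶠ k in atTop, ∀ l : ℕ, l < N → ε * a k ≤
        |((q (k+1) * β - γ) + l * (q (k+1) * θ)) - round ((q (k+1) * β - γ) + l * (q (k+1) * θ))| := by
      filter_upwards [hev2] with k hk l hl
      have h1 := hk l (Finset.mem_range.2 hl)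
      rw [hcast] at h1
      have h2 := hX k
      have e1 : (q (k+1) : ℝ) * (β + l * θ) - γ = (q (k+1) * β - γ) + l * (q (k+1) * θ) := by ring
      rw [e1] at h1
      set Y := |((q (k+1) * β - γ) + l * (q (k+1) * θ))
        - round ((q (k+1) * β - γ) + l * (q (k+1) * θ))| with hY
      set X := (q (k+1) : ℝ) * |q (k+1) * α - round (q (k+1) * α)| with hXd
      have hY0 : 0 ≤ Y := abs_nonneg _
      have ha0 : (0:ℝ) ≤ a k := by
        have := ha1 k
        exact_mod_cast (by omega : (0:ℤ) ≤ a k)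
      calc ε * a k ≤ (X * Y) * a k := by gcongr
        _ = (a k * X) * Y := by ring
        _ ≤ 1 * Y := by gcongr
        _ = Y := one_mul _
    -- approximations of `q θ`
    have hap : ∀ᶠ k in atTop, ∃ (b : ℕ) (c : ℤ), 1 ≤ b ∧ (b:ℝ) * a k ≤ B ∧
        |b * (q (k+1) * θ) - c| * (N - B) < 1 := by
      filter_upwards [hfar] with k hk
      have ha0 : (1:ℝ) ≤ a k := by exact_mod_cast ha1 k
      obtain ⟨b, c, hb1, hb2, hb3⟩ := gap (q (k+1) * β - γ) (q (k+1) * θ) (ε * a k) N
        (by positivity) hN1 hk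
      have hbr : (1:ℝ) ≤ b := by exact_mod_cast hb1
      have hbB : (b:ℝ) * a k ≤ B := by
        rw [hB, le_div_iff₀ (by positivity)]
        linarith
      refine ⟨b, c, hb1, hbB, ?_⟩
      have h1 : (b:ℝ) ≤ B := by nlinarith
      refine lt_of_le_of_lt ?_ hb3
      gcongr
    obtain ⟨K, hK⟩ := eventually_atTop.1 hap
    choose! b c hb1 hb2 hb3 using hK
    have hbr : ∀ k, K ≤ k → (1:ℝ) ≤ b k := fun k hk => by exact_mod_cast hb1 k hk
    have har : ∀ k, (1:ℝ) ≤ a k := fun k => by exact_mod_cast ha1 k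
    have hbB : ∀ k, K ≤ k → (b k:ℝ) ≤ B := fun k hk => by
      have h1 := hb2 k hk
      have h2 := hbr k hk
      have h3 := har k
      nlinarith
    have haA : ∀ᶠ k in atTop, (a k:ℝ) ≤ A := by
      rcases hα' with h | h
      · filter_upwards [eventually_ge_atTop K] with k hk
        have h1 := hb2 k hk
        have h2 := hbr k hk
        have h3 := har k
        have h4 : B ≤ A := by
          rw [hB, hA]
          exact one_div_le_one_div_of_le hδ h
        nlinarith
      · filter_upwards [hqt.eventually h] with k hk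
        rw [hcast] at hk
        have h1 := hX k
        have h3 := har k
        rw [hA, le_div_iff₀ hδ]
        calc (a k:ℝ) * δ ≤ a k * ((q (k+1) : ℝ) * |q (k+1) * α - round (q (k+1) * α)|) := by
              gcongr
          _ ≤ 1 := h1
    obtain ⟨K', hK'⟩ := eventually_atTop.1 haA
    set T : ℝ := N - B with hT
    have hT8 : (A + 2) * B^2 ≤ T := by
      rw [hT]; linarith
    have hT0 : 0 < T := by
      nlinarith
    set e : ℕ → ℝ := fun k => q (k+1) * θ - c k / b k with he
    have heb' : ∀ k, K ≤ k → b k * |e k| < 1/T := by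
      intro k hk
      have h1 := hb3 k hk
      have h2 := hbr k hk
      have h3 : (b k : ℝ) * e k = b k * (q (k+1) * θ) - c k := by
        simp only [he]
        field_simp
      rw [← h3, abs_mul, abs_of_pos (by linarith : (0:ℝ) < b k)] at h1
      rw [lt_div_iff₀ hT0]
      exact h1
    have heb : ∀ k, K ≤ k → |e k| < 1/T := by
      intro k hk
      have h1 := heb' k hk
      have h2 := hbr k hk
      nlinarith [abs_nonneg (e k)]
    -- the exact recurrence
    have hrec : ∀ k, K ≤ k → K' ≤ k → (c (k+2) : ℝ) / b (k+2)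
        = a (k+1) * (c (k+1) / b (k+1)) + c k / b k := by
      intro k hk hk'
      have h0 := hbr k hk
      have h1 := hbr (k+1) (by omega)
      have h2 := hbr (k+2) (by omega)
      set I : ℤ := c (k+2) * b (k+1) * b k - a (k+1) * c (k+1) * b (k+2) * b k
        - c k * b (k+1) * b (k+2) with hI
      have hq3 : (q (k+2+1) : ℝ) = a (k+1) * q (k+1+1) + q (k+1) := by
        have := hqr (k+1)
        exact_mod_cast this
      have hIe : (I : ℝ) = -((b k * b (k+2)) * (b (k+1) * (e (k+2) - a (k+1) * e (k+1) - e k))) := by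
        simp only [he]
        rw [hI, hq3]
        push_cast
        field_simp
        ring
      have hIlt : |(I:ℝ)| < 1 := by
        rw [hIe, abs_neg, abs_mul, abs_of_pos (by nlinarith : (0:ℝ) < b k * b (k+2)), abs_mul,
          abs_of_pos (by linarith : (0:ℝ) < b (k+1))]
        have g1 := heb' k hk
        have g2 := heb' (k+1) (by omega)
        have g3 := heb' (k+2) (by omega)
        have g4 := har (k+1)
        have g5 := hK' (k+1) (by omega)
        have u0 := hbB k hk
        have u1 := hbB (k+1) (by omega)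
        have u2 := hbB (k+2) (by omega)
        have hT1 : 0 < 1/T := by positivity
        have g6 : |e (k+2) - a (k+1) * e (k+1) - e k|
            ≤ |e (k+2)| + a (k+1) * |e (k+1)| + |e k| := by
          calc |e (k+2) - a (k+1) * e (k+1) - e k|
              ≤ |e (k+2) - a (k+1) * e (k+1)| + |e k| := abs_sub _ _
            _ ≤ |e (k+2)| + |a (k+1) * e (k+1)| + |e k| := by gcongr; exact abs_sub _ _
            _ = |e (k+2)| + a (k+1) * |e (k+1)| + |e k| := by
                rw [abs_mul, abs_of_pos (by linarith : (0:ℝ) < a (k+1))]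
        calc (b k:ℝ) * b (k+2) * (b (k+1) * |e (k+2) - a (k+1) * e (k+1) - e k|)
            ≤ (b k:ℝ) * b (k+2) * (b (k+1) * (|e (k+2)| + a (k+1) * |e (k+1)| + |e k|)) := by
              gcongr
          _ = (b k:ℝ) * b (k+1) * (b (k+2) * |e (k+2)|)
              + a (k+1) * (b k * b (k+2)) * (b (k+1) * |e (k+1)|)
              + b (k+1) * b (k+2) * (b k * |e k|) := by ring
          _ < (b k:ℝ) * b (k+1) * (1/T) + a (k+1) * (b k * b (k+2)) * (1/T)
              + b (k+1) * b (k+2) * (1/T) := by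
              have v1 : (b k:ℝ) * b (k+1) * (b (k+2) * |e (k+2)|) < (b k:ℝ) * b (k+1) * (1/T) :=
                mul_lt_mul_of_pos_left g3 (by nlinarith)
              have v2 : (a (k+1):ℝ) * (b k * b (k+2)) * (b (k+1) * |e (k+1)|)
                  ≤ a (k+1) * (b k * b (k+2)) * (1/T) := by gcongr
              have v3 : (b (k+1):ℝ) * b (k+2) * (b k * |e k|) ≤ b (k+1) * b (k+2) * (1/T) := by
                gcongr
              linarith
          _ ≤ B * B * (1/T) + A * (B * B) * (1/T) + B * B * (1/T) := by gcongr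
          _ = (A + 2) * B^2 / T := by ring
          _ ≤ 1 := by
              rw [div_le_one hT0]
              exact hT8
      have hI0 : I = 0 := by
        have : |I| < 1 := by exact_mod_cast hIlt
        exact Int.abs_lt_one_iff.1 this
      have hIr : ((c (k+2) * b (k+1) * b k - a (k+1) * c (k+1) * b (k+2) * b k
        - c k * b (k+1) * b (k+2) : ℤ) : ℝ) = 0 := by rw [← hI, hI0]; norm_num
      push_cast at hIr
      field_simp
      linarith
    -- integrality
    obtain ⟨M, hMK, hMK'⟩ : ∃ M, K ≤ M ∧ K' ≤ M := ⟨max K K', le_max_left _ _, le_max_right _ _⟩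
    set L : ℕ := b M * b (M+1) with hL
    have hint : ∀ m : ℕ, ∃ z : ℤ, (L:ℝ) * (c (M+m) / b (M+m)) = z := by
      intro m
      induction m using Nat.twoStepInduction with
      | zero =>
        refine ⟨b (M+1) * c M, ?_⟩
        have := hbr M hMK
        rw [hL]; push_cast
        simp only [add_zero]
        field_simp
      | one =>
        refine ⟨b M * c (M+1), ?_⟩
        have := hbr (M+1) (by omega)
        rw [hL]; push_cast
        field_simp
      | more m h1 h2 =>
        obtain ⟨z1, h1⟩ := h1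
        obtain ⟨z2, h2⟩ := h2
        refine ⟨a (M+m+1) * z2 + z1, ?_⟩
        have h3 := hrec (M+m) (by omega) (by omega)
        have e1 : M + (m+2) = M+m+2 := by omega
        have e2 : M + (m+1) = M+m+1 := by omega
        rw [e1, h3]
        rw [e2] at h2
        push_cast
        rw [← h1, ← h2]; ring
    have hL0 : 0 < L := Nat.mul_pos (hb1 M hMK) (hb1 (M+1) (by omega))
    have hLB : (L:ℝ) ≤ B^2 := by
      rw [hL]; push_cast
      have g1 := hbB M hMK
      have g2 := hbB (M+1) (by omega)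
      have g3 := hbr M hMK
      calc (b M:ℝ) * b (M+1) ≤ B * B := by gcongr
        _ = B^2 := by ring
    choose z hz using hint
    -- unimodularity
    have hdetz : q (M+1+1) * p (M+1) - q (M+1) * p (M+1+1) = 1 ∨
        q (M+1+1) * p (M+1) - q (M+1) * p (M+1+1) = -1 := by
      have h1 := hdet (M+1)
      have h2 := hsgn (M+1)
      have h3 : ((q (M+1+1) * p (M+1) - q (M+1) * p (M+1+1) : ℤ) : ℝ)
          = q (M+1) * (q (M+1+1) * α - p (M+1+1)) - q (M+1+1) * (q (M+1) * α - p (M+1)) := by
        push_cast; ring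
      rcases mul_neg_iff.1 h2 with ⟨h4, h5⟩ | ⟨h4, h5⟩
      · right
        rw [abs_of_pos h4, abs_of_neg h5] at h1
        have : ((q (M+1+1) * p (M+1) - q (M+1) * p (M+1+1) : ℤ) : ℝ) = -1 := by
          rw [h3]; linarith
        exact_mod_cast this
      · left
        rw [abs_of_neg h4, abs_of_pos h5] at h1
        have : ((q (M+1+1) * p (M+1) - q (M+1) * p (M+1+1) : ℤ) : ℝ) = 1 := by
          rw [h3]; linarith
        exact_mod_cast this
    have hzrec : ∀ m, z (m+2) = a (M+m+1) * z (m+1) + z m := by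
      intro m
      have h1 := hz m
      have h2 := hz (m+1)
      have h3 := hz (m+2)
      have h4 := hrec (M+m) (by omega) (by omega)
      have e1 : M + (m+2) = M+m+2 := by omega
      have e2 : M + (m+1) = M+m+1 := by omega
      rw [e1, h4] at h3
      rw [e2] at h2
      have : ((z (m+2) : ℤ) : ℝ) = a (M+m+1) * z (m+1) + z m := by
        rw [← h1, ← h2, ← h3]; ring
      exact_mod_cast this
    obtain ⟨U, V, hUV0, hUV1⟩ : ∃ U V : ℤ, z 0 = U * q (M+1) + V * p (M+1) ∧
        z 1 = U * q (M+1+1) + V * p (M+1+1) := by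
      rcases hdetz with h | h
      · refine ⟨p (M+1) * z 1 - p (M+1+1) * z 0, q (M+1+1) * z 0 - q (M+1) * z 1, ?_, ?_⟩
        · linear_combination (-z 0) * h
        · linear_combination (-z 1) * h
      · refine ⟨-(p (M+1) * z 1 - p (M+1+1) * z 0), -(q (M+1+1) * z 0 - q (M+1) * z 1), ?_, ?_⟩
        · linear_combination (z 0) * h
        · linear_combination (z 1) * h
    have hzUV : ∀ m, z m = U * q (M+m+1) + V * p (M+m+1) := by
      intro m
      induction m using Nat.twoStepInduction with
      | zero => simpa using hUV0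
      | one => simpa using hUV1
      | more m h1 h2 =>
        have e1 : M + (m+2) + 1 = (M+m+1) + 2 := by omega
        have e2 : M + (m+1) + 1 = (M+m+1) + 1 := by omega
        rw [hzrec, h1, h2, e1, e2, hqr (M+m+1), hpr (M+m+1)]; ring
    have hL1 : 4 * ε^2 * (L:ℝ) ≤ 1 := by
      have h1 : 4 * ε^2 * B^2 = 1 := by rw [hB]; field_simp; norm_num
      nlinarith [sq_nonneg ε]
    have hLT : (L:ℝ) * (1/T) ≤ 1 := by
      rw [mul_one_div, div_le_one hT0]
      nlinarith
    set Z : ℝ := (L:ℝ) * θ - U - V * α with hZ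
    have hZb : ∀ m, |(q (M+m+1) : ℝ) * Z| ≤ 1 + |(V:ℝ)| := by
      intro m
      have h1 := heb (M+m) (by omega)
      have h2 := hz m
      have h3 : ((z m : ℤ) : ℝ) = U * q (M+m+1) + V * p (M+m+1) := by exact_mod_cast hzUV m
      have h4 : (q (M+m+1) : ℝ) * Z = L * e (M+m) - V * (q (M+m+1) * α - p (M+m+1)) := by
        have : (L:ℝ) * e (M+m) = L * (q (M+m+1) * θ) - z m := by
          simp only [he]
          rw [← h2]; ring
        rw [this, h3, hZ]; ring
      have h5 : |(q (M+m+1) : ℝ) * α - p (M+m+1)| ≤ 1 := by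
        have h6 := hdet (M+m+1)
        have h7 : (1:ℝ) ≤ q (M+m+1+1) := by exact_mod_cast hq1 _
        have h8 : (0:ℝ) ≤ (q (M+m+1) : ℝ) * |q (M+m+1+1) * α - p (M+m+1+1)| :=
          mul_nonneg (by exact_mod_cast hq0 _) (abs_nonneg _)
        nlinarith [abs_nonneg ((q (M+m+1) : ℝ) * α - p (M+m+1))]
      rw [h4]
      calc |(L:ℝ) * e (M+m) - V * (q (M+m+1) * α - p (M+m+1))|
          ≤ |(L:ℝ) * e (M+m)| + |V * (q (M+m+1) * α - p (M+m+1))| := abs_sub _ _
        _ = L * |e (M+m)| + |(V:ℝ)| * |q (M+m+1) * α - p (M+m+1)| := by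
            rw [abs_mul, abs_mul, Nat.abs_cast]
        _ ≤ L * (1/T) + |(V:ℝ)| * 1 := by gcongr
        _ ≤ 1 + |(V:ℝ)| := by linarith
    have hZ0 : Z = 0 := by
      by_contra hne
      have hpos := abs_pos.2 hne
      obtain ⟨m, hm⟩ := exists_nat_gt ((1 + |(V:ℝ)|) / |Z|)
      rw [div_lt_iff₀ hpos] at hm
      have h1 := hZb m
      rw [abs_mul] at h1
      have h2 : (m:ℝ) ≤ |(q (M+m+1):ℝ)| := by
        have h3 := hqk (M+m+1)
        push_cast at h3
        have h4 : (m:ℤ) ≤ q (M+m+1) := by omega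
        have h5 : (m:ℝ) ≤ q (M+m+1) := by exact_mod_cast h4
        exact h5.trans (le_abs_self _)
      nlinarith
    exact hθ L hL0 hL1 U V (by rw [hZ] at hZ0; linarith)
  · -- rational `α`
    obtain ⟨r, hr⟩ : ∃ r : ℚ, (r:ℝ) = α := by
      unfold Irrational at hα
      push Not at hα
      exact hα
    obtain ⟨Q0, hQ0⟩ := eventually_atTop.1 hev
    have h1 := hQ0 (r.den * (Q0+1)) (by nlinarith [r.pos]) 0 (Finset.mem_range.2 hN1)
    have h2 : |(((r.den * (Q0+1) : ℕ)) : ℝ) * α - round ((((r.den * (Q0+1) : ℕ)) : ℝ) * α)| = 0 := by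
      have h3 : (((r.den * (Q0+1) : ℕ)) : ℝ) * α = ((r.num * (Q0+1) : ℤ) : ℝ) := by
        rw [← hr]
        have h4 : (r:ℝ) * r.den = r.num := by exact_mod_cast Rat.mul_den_eq_num r
        push_cast
        rw [← h4]; ring
      rw [h3, round_intCast]; simp
    rw [h2] at h1
    simp at h1
    linarith

end Pool.Agent.H238R3.UL
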