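import Pool.Agent.H238R3.UL.Gap

set_option autoImplicit false

/-!
# Short arithmetic progressions: divisibility chains with bounded ratios
-/

namespace Pool.Agent.H238R3.UL

open Filter Topology

/-- Explicit form of the theorem on arithmetic progressions, for a divisibility chain
`t k` with ratios `t (k+1) / t k` in `[2, M]`. -/
theorem shortD (t d : ℕ → ℕ) (M : ℝ) (K0 : ℕ) (hd2 : ∀ k, K0 ≤ k → 2 ≤ d k)
    (hdM : ∀ k, K0 ≤ k → (d k : ℝ) ≤ M) (ht : ∀ k, K0 ≤ k → t (k+1) = d k * t k)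
    (β θ γ ε : ℝ) (hε : 0 < ε) (hε2 : ε ≤ 1/2) (N : ℕ)
    (hN : (M + 2) / (2 * ε) ≤ N)
    (hθ : ∀ b k : ℕ, 1 ≤ b → 2 * ε * b ≤ 1 → ∀ c : ℤ, (b : ℝ) * (t k : ℝ) * θ ≠ c) :
    ∃ l : ℕ, l < N ∧ ∃ᶠ k : ℕ in atTop,
      |((t k : ℝ) * (β + l * θ) - γ) - round ((t k : ℝ) * (β + l * θ) - γ)| < ε := by
  classical
  have hM2 : (2:ℝ) ≤ M := by
    have h1 : (2:ℝ) ≤ d K0 := by exact_mod_cast hd2 K0 le_rfl
    exact h1.trans (hdM K0 le_rfl)
  set B : ℝ := 1/(2*ε) with hB
  have hB1 : 1 ≤ B := by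
    rw [hB, le_div_iff₀ (by positivity)]; linarith
  have hNB : (M + 2) * B ≤ N := by
    have : (M + 2) / (2 * ε) = (M + 2) * B := by rw [hB]; field_simp
    linarith
  have hN1 : 1 ≤ N := by
    have : (1:ℝ) ≤ N := by nlinarith
    exact_mod_cast this
  by_contra hcon
  push Not at hcon
  have hev : ∀ᶠ k : ℕ in atTop, ∀ l ∈ Finset.range N,
      ε ≤ |((t k : ℝ) * (β + l * θ) - γ) - round ((t k : ℝ) * (β + l * θ) - γ)| := by
    rw [Filter.eventually_all_finset]
    intro l hl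
    exact hcon l (Finset.mem_range.1 hl)
  have hap : ∀ᶠ k in atTop, ∃ (b : ℕ) (c : ℤ), 1 ≤ b ∧ (b:ℝ) ≤ B ∧
      |b * ((t k : ℝ) * θ) - c| * (N - B) < 1 := by
    filter_upwards [hev] with k hk
    obtain ⟨b, c, hb1, hb2, hb3⟩ := gap ((t k : ℝ) * β - γ) ((t k : ℝ) * θ) ε N hε hN1 (by
      intro l hl
      have h1 := hk l (Finset.mem_range.2 hl)
      have e1 : (t k : ℝ) * (β + l * θ) - γ = ((t k : ℝ) * β - γ) + l * ((t k : ℝ) * θ) := by ring
      rwa [e1] at h1)
    have hbB : (b:ℝ) ≤ B := by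
      rw [hB, le_div_iff₀ (by positivity)]
      linarith
    refine ⟨b, c, hb1, hbB, ?_⟩
    refine lt_of_le_of_lt ?_ hb3
    gcongr
  obtain ⟨K, hK0, hK⟩ : ∃ K, K0 ≤ K ∧ ∀ k, K ≤ k → ∃ (b : ℕ) (c : ℤ), 1 ≤ b ∧ (b:ℝ) ≤ B ∧
      |b * ((t k : ℝ) * θ) - c| * (N - B) < 1 := by
    obtain ⟨K1, hK1⟩ := eventually_atTop.1 hap
    exact ⟨max K0 K1, le_max_left _ _, fun k hk => hK1 k ((le_max_right _ _).trans hk)⟩
  choose! b c hb1 hb2 hb3 using hK
  have hbr : ∀ k, K ≤ k → (1:ℝ) ≤ b k := fun k hk => by exact_mod_cast hb1 k hk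
  set T : ℝ := N - B with hT
  have hT8 : (M + 1) * B ≤ T := by
    rw [hT]
    linarith
  have hT0 : 0 < T := by
    nlinarith
  set e : ℕ → ℝ := fun k => (t k : ℝ) * θ - c k / b k with he
  have heb' : ∀ k, K ≤ k → b k * |e k| < 1/T := by
    intro k hk
    have h1 := hb3 k hk
    have h2 := hbr k hk
    have h3 : (b k : ℝ) * e k = b k * ((t k : ℝ) * θ) - c k := by
      simp only [he]
      field_simp
    rw [← h3, abs_mul, abs_of_pos (by linarith : (0:ℝ) < b k)] at h1
    rw [lt_div_iff₀ hT0]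
    exact h1
  have heb : ∀ k, K ≤ k → |e k| < 1/T := by
    intro k hk
    have h1 := heb' k hk
    have h2 := hbr k hk
    nlinarith [abs_nonneg (e k)]
  have hrec : ∀ k, K ≤ k → e (k+1) = d k * e k := by
    intro k hk
    have h0 := hbr k hk
    have h1 := hbr (k+1) (by omega)
    have hdk : (2:ℝ) ≤ d k := by exact_mod_cast hd2 k (by omega)
    have htk : (t (k+1) : ℝ) = d k * t k := by
      rw [ht k (by omega)]; push_cast; ring
    set I : ℤ := c (k+1) * b k - d k * c k * b (k+1) with hI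
    have hIe : (I : ℝ) = -((b k * b (k+1)) * (e (k+1) - d k * e k)) := by
      simp only [he]
      rw [hI, htk]
      push_cast
      field_simp
      ring
    have hIlt : |(I:ℝ)| < 1 := by
      rw [hIe, abs_neg, abs_mul, abs_of_pos (by nlinarith : (0:ℝ) < b k * b (k+1))]
      have g1 := hb2 k hk
      have g2 := hb2 (k+1) (by omega)
      have g3 := heb' k hk
      have g4 := heb' (k+1) (by omega)
      have g5 := hdM k (by omega)
      calc (b k:ℝ) * b (k+1) * |e (k+1) - d k * e k|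
          ≤ (b k:ℝ) * b (k+1) * (|e (k+1)| + |d k * e k|) := by
            gcongr
            exact abs_sub _ _
        _ = b k * (b (k+1) * |e (k+1)|) + d k * b (k+1) * (b k * |e k|) := by
            rw [abs_mul, abs_of_pos (by linarith : (0:ℝ) < d k)]; ring
        _ < b k * (1/T) + d k * b (k+1) * (1/T) := by
            have a1 : (b k:ℝ) * (b (k+1) * |e (k+1)|) < b k * (1/T) :=
              mul_lt_mul_of_pos_left g4 (by linarith)
            have a2 : (d k:ℝ) * b (k+1) * (b k * |e k|) ≤ d k * b (k+1) * (1/T) := by gcongr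
            linarith
        _ ≤ B * (1/T) + M * B * (1/T) := by gcongr
        _ = (M + 1) * B / T := by ring
        _ ≤ 1 := by
            rw [div_le_one hT0]
            exact hT8
    have hI0 : I = 0 := by
      have : |I| < 1 := by exact_mod_cast hIlt
      exact Int.abs_lt_one_iff.1 this
    have h5 : (b k * b (k+1):ℝ) * (e (k+1) - d k * e k) = 0 := by
      have : (I:ℝ) = 0 := by rw [hI0]; norm_num
      rw [hIe] at this
      linarith
    rcases mul_eq_zero.1 h5 with h | h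
    · nlinarith
    · linarith
  have hgrow : ∀ m, 2^m * |e K| ≤ |e (K+m)| := by
    intro m
    induction m with
    | zero => simp
    | succ m ih =>
      have hdk : (2:ℝ) ≤ d (K+m) := by exact_mod_cast hd2 (K+m) (by omega)
      rw [← add_assoc, hrec (K+m) (by omega), pow_succ, abs_mul,
        abs_of_pos (by linarith : (0:ℝ) < d (K+m))]
      nlinarith [abs_nonneg (e (K+m))]
  have hzero : e K = 0 := by
    by_contra hne
    have hpos := abs_pos.2 hne
    obtain ⟨m, hm⟩ := pow_unbounded_of_one_lt (1/T/|e K|) (by norm_num : (1:ℝ) < 2)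
    rw [div_lt_iff₀ hpos] at hm
    have h1 := heb (K+m) (by omega)
    have h2 := hgrow m
    linarith
  have h0 := hbr K le_rfl
  have h2 : (t K : ℝ) * θ = c K / b K := by
    simp only [he] at hzero
    linarith
  have h3 : (b K:ℝ) ≠ 0 := by positivity
  have h4 : 2 * ε * (b K:ℝ) ≤ 1 := by
    have h5 : 2 * ε * B = 1 := by rw [hB]; field_simp
    have := hb2 K le_rfl
    nlinarith
  refine hθ (b K) K (hb1 K le_rfl) h4 (c K) ?_
  rw [mul_assoc, h2]
  field_simp

end Pool.Agent.H238R3.UL
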